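import Mathlib

/-!
# Flat pieces, their weight measure and their first variation
-/

set_option autoImplicit false

noncomputable section

open MeasureTheory Set Filter Topology
open scoped ENNReal RealInnerProductSpace

namespace Pool.Agent.SP74

/-- A weighted flat piece of dimension `d` in the Euclidean space `F`: the part with coordinates
in `A` of the affine `d`-plane through `p` with orthonormal frame `v`, with multiplicity `w > 0`. -/
structure Flat (d : ℕ) (F : Type) [NormedAddCommGroup F] [InnerProductSpace ℝ F] where
  /-- multiplicity -/
  w : ℝ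
  /-- base point -/
  p : F
  /-- orthonormal frame of the tangent plane -/
  v : Fin d → F
  /-- coordinates of the points of the piece -/
  A : Set (Fin d → ℝ)
  w_pos : 0 < w
  ortho : Orthonormal ℝ v
  meas : MeasurableSet A

variable {d : ℕ} {F : Type} [NormedAddCommGroup F] [InnerProductSpace ℝ F]

/-- the point of the plane of the piece with coordinates `t` -/
def Flat.pos (P : Flat d F) (t : Fin d → ℝ) : F := P.p + ∑ j, t j • P.v j

/-- the set of points of the piece -/
def Flat.carrier (P : Flat d F) : Set F := P.pos '' P.A

/-- weight measure of a piece: multiplicity times `d`-dimensional area -/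
def Flat.mass [MeasurableSpace F] (P : Flat d F) : Measure F :=
  ENNReal.ofReal P.w • (volume.restrict P.A).map P.pos

/-- first variation of a piece: multiplicity times the integral of the tangential divergence -/
def Flat.fv (P : Flat d F) (X : F → F) : ℝ :=
  P.w * ∫ t in P.A, ∑ j, ⟪fderiv ℝ X (P.pos t) (P.v j), P.v j⟫

/-- weight measure of the varifold which consists of the pieces `V i` -/
def weight [MeasurableSpace F] {ι : Type} (V : ι → Flat d F) : Measure F :=
  Measure.sum fun i => (V i).mass

/-- multiplicity of the varifold which consists of the pieces `V i` at the point `x`: sum of the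
multiplicities of the pieces through `x` -/
def mult {ι : Type} (V : ι → Flat d F) (x : F) : ℝ :=
  ∑' i, (V i).carrier.indicator (fun _ => (V i).w) x

/-- the varifold which consists of the pieces `V i` is stationary in the open set `U`: its first
variation vanishes on every `C¹` vector field with compact support in `U` -/
def StationaryIn (U : Set F) {ι : Type} (V : ι → Flat d F) : Prop :=
  ∀ X : F → F, ContDiff ℝ 1 X → HasCompactSupport X → tsupport X ⊆ U →
    HasSum (fun i => (V i).fv X) 0

/-- at the points of the pieces in the ball of radius `r` the multiplicity is at least one and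
differs from a positive integer by at most `δ` -/
def NearInt {ι : Type} (V : ι → Flat d F) (r δ : ℝ) : Prop :=
  ∀ x ∈ Metric.ball 0 r, (∃ i, x ∈ (V i).carrier) →
    1 ≤ mult V x ∧ ∃ N : ℕ, 0 < N ∧ |mult V x - N| ≤ δ

/-- every ball has finite mass and finitely many pieces pass through every point -/
def LocFinite [MeasurableSpace F] {ι : Type} (V : ι → Flat d F) : Prop :=
  (∀ R, weight V (Metric.ball 0 R) < ⊤) ∧ ∀ x, {i | x ∈ (V i).carrier}.Finite

/-- Euclidean space with `m + 1` horizontal and `n + 1` vertical coordinates -/
abbrev E (m n : ℕ) : Type := EuclideanSpace ℝ (Fin (m + 1) ⊕ Fin (n + 1))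

/-- the horizontal plane `π₀` -/
def plane (m n : ℕ) : Set (E m n) := {x | ∀ j : Fin (n + 1), x (Sum.inr j) = 0}

/-- in the ball of radius `r` the points of the pieces have distance at most `δ` from `π₀` and the
frames of the pieces have vertical coordinates at most `δ` -/
def NearPlane {m n : ℕ} {ι : Type} (V : ι → Flat (m + 1) (E m n)) (r δ : ℝ) : Prop :=
  ∀ i, ∀ x ∈ (V i).carrier ∩ Metric.ball 0 r,
    Metric.infDist x (plane m n) ≤ δ ∧ ∀ j l, |(V i).v j (Sum.inr l)| ≤ δ

/-- integral of the squared distance from `π₀` over the ball of radius `r` -/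
def contactInt {m n : ℕ} {ι : Type} (V : ι → Flat (m + 1) (E m n)) (r : ℝ) : ℝ≥0∞ :=
  ∫⁻ x in Metric.ball 0 r, ENNReal.ofReal (Metric.infDist x (plane m n) ^ 2) ∂(weight V)

/-- mass off `π₀` in the ball of radius `r` -/
def offMass {m n : ℕ} {ι : Type} (V : ι → Flat (m + 1) (E m n)) (r : ℝ) : ℝ≥0∞ :=
  weight V (Metric.ball 0 r \ plane m n)

end Pool.Agent.SP74

end
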