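import Pool.Agent.SP74.Defs

/-!
# The first variation of a strip over a segment
-/

set_option autoImplicit false

noncomputable section

open MeasureTheory Set Filter Topology
open scoped ENNReal NNReal RealInnerProductSpace

namespace Pool.Agent.SP74

/-- first horizontal unit vector -/
def ex (m n : ℕ) : E m n := EuclideanSpace.single (Sum.inl 0) 1

/-- first vertical unit vector -/
def ez (m n : ℕ) : E m n := EuclideanSpace.single (Sum.inr 0) 1

/-- the other horizontal unit vectors -/
def et (m n : ℕ) (j : Fin m) : E m n := EuclideanSpace.single (Sum.inl j.succ) 1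

/-- embedding of the plane of the first horizontal and the first vertical coordinate -/
def emb (m n : ℕ) (a b : ℝ) : E m n := a • ex m n + b • ez m n

/-- translation in the other horizontal directions -/
def tr (m n : ℕ) (t : Fin m → ℝ) : E m n := ∑ j, t j • et m n j

variable {m n : ℕ}

@[simp] lemma inner_ex_ex : ⟪ex m n, ex m n⟫ = 1 := by
  simp only [ex]; rw [EuclideanSpace.inner_single_left]; simp
@[simp] lemma inner_ez_ez : ⟪ez m n, ez m n⟫ = 1 := by
  simp only [ez]; rw [EuclideanSpace.inner_single_left]; simp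
@[simp] lemma inner_ex_ez : ⟪ex m n, ez m n⟫ = 0 := by
  simp only [ex, ez]; rw [EuclideanSpace.inner_single_left]; simp
@[simp] lemma inner_ez_ex : ⟪ez m n, ex m n⟫ = 0 := by
  simp only [ex, ez]; rw [EuclideanSpace.inner_single_left]; simp
@[simp] lemma inner_ex_et (j : Fin m) : ⟪ex m n, et m n j⟫ = 0 := by
  simp only [ex, et]; rw [EuclideanSpace.inner_single_left]; simp [(Fin.succ_ne_zero j).symm]
@[simp] lemma inner_et_ex (j : Fin m) : ⟪et m n j, ex m n⟫ = 0 := by
  rw [real_inner_comm, inner_ex_et]
@[simp] lemma inner_ez_et (j : Fin m) : ⟪ez m n, et m n j⟫ = 0 := by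
  simp only [ez, et]; rw [EuclideanSpace.inner_single_left]; simp
@[simp] lemma inner_et_ez (j : Fin m) : ⟪et m n j, ez m n⟫ = 0 := by
  rw [real_inner_comm, inner_ez_et]
lemma inner_et_et (i j : Fin m) : ⟪et m n i, et m n j⟫ = if i = j then 1 else 0 := by
  simp only [et]; rw [EuclideanSpace.inner_single_left]
  simp

lemma inner_emb_emb (a b c d : ℝ) : ⟪emb m n a b, emb m n c d⟫ = a * c + b * d := by
  simp only [emb, inner_add_left, inner_add_right, inner_smul_left, inner_smul_right,
    inner_ex_ex, inner_ez_ez, inner_ex_ez, inner_ez_ex]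
  simp
  ring

lemma inner_emb_et (a b : ℝ) (j : Fin m) : ⟪emb m n a b, et m n j⟫ = 0 := by
  simp [emb, inner_add_left, inner_smul_left]

lemma inner_et_emb (a b : ℝ) (j : Fin m) : ⟪et m n j, emb m n a b⟫ = 0 := by
  simp [emb, inner_add_right, inner_smul_right]

/-- the frame of a strip -/
def frame (m n : ℕ) (c d : ℝ) : Fin (m + 1) → E m n := Fin.cons (emb m n c d) (et m n)

lemma frame_orthonormal {c d : ℝ} (h : c ^ 2 + d ^ 2 = 1) : Orthonormal ℝ (frame m n c d) := by
  rw [orthonormal_iff_ite]
  intro i j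
  refine Fin.cases ?_ (fun i => ?_) i <;> refine Fin.cases ?_ (fun j => ?_) j
  · simp only [frame, Fin.cons_zero, inner_emb_emb, if_true]; nlinarith
  · simp only [frame, Fin.cons_zero, Fin.cons_succ, inner_emb_et]
    rw [if_neg (Fin.succ_ne_zero j).symm]
  · simp only [frame, Fin.cons_zero, Fin.cons_succ, inner_et_emb]
    rw [if_neg (Fin.succ_ne_zero i)]
  · simp only [frame, Fin.cons_succ, inner_et_et, Fin.succ_inj]

/-- the strip over the segment with base `(a, b)`, direction `(c, d)` and length `ℓ` -/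
def seg (m n : ℕ) (w a b c d ℓ : ℝ) (hw : 0 < w) (hu : c ^ 2 + d ^ 2 = 1) :
    Flat (m + 1) (E m n) where
  w := w
  p := emb m n a b
  v := frame m n c d
  A := {t | t 0 ∈ Ioo 0 ℓ}
  w_pos := hw
  ortho := frame_orthonormal hu
  meas := measurableSet_Ioo.preimage (measurable_pi_apply 0)

lemma emb_add (a b c d s : ℝ) :
    emb m n a b + s • emb m n c d = emb m n (a + s * c) (b + s * d) := by
  simp only [emb]; module

lemma seg_pos (w a b c d ℓ : ℝ) (hw : 0 < w) (hu : c ^ 2 + d ^ 2 = 1) (t : Fin (m + 1) → ℝ) :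
    (seg m n w a b c d ℓ hw hu).pos t
      = emb m n (a + t 0 * c) (b + t 0 * d) + tr m n (fun j => t j.succ) := by
  simp only [Flat.pos, seg, Fin.sum_univ_succ, frame, Fin.cons_zero, Fin.cons_succ, tr]
  rw [← add_assoc, emb_add]

@[simp] lemma tr_inl_zero (t : Fin m → ℝ) : tr m n t (Sum.inl 0) = 0 := by
  simp [tr, et, (Fin.succ_ne_zero _)]

@[simp] lemma tr_inl_succ (t : Fin m → ℝ) (j : Fin m) : tr m n t (Sum.inl j.succ) = t j := by
  simp [tr, et, Pi.single_apply]

@[simp] lemma tr_inr (t : Fin m → ℝ) (j : Fin (n + 1)) : tr m n t (Sum.inr j) = 0 := by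
  simp [tr, et]

@[simp] lemma emb_inl_zero (a b : ℝ) : emb m n a b (Sum.inl 0) = a := by
  simp [emb, ex, ez]

@[simp] lemma emb_inl_succ (a b : ℝ) (j : Fin m) : emb m n a b (Sum.inl j.succ) = 0 := by
  simp [emb, ex, ez]

@[simp] lemma emb_inr_zero (a b : ℝ) : emb m n a b (Sum.inr 0) = b := by
  simp [emb, ex, ez]

lemma continuous_emb : Continuous (fun z : ℝ × ℝ => emb m n z.1 z.2) := by
  simp only [emb]; fun_prop

lemma continuous_tr : Continuous (tr m n) := by
  unfold tr; fun_prop

/-- integral of a component of a field over the translates of a point of the plane -/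
def Phi (X : E m n → E m n) (c : E m n) (a b : ℝ) : ℝ :=
  ∫ t : Fin m → ℝ, ⟪X (emb m n a b + tr m n t), c⟫

lemma norm_et (j : Fin m) : ‖et m n j‖ = 1 := by simp [et]
lemma norm_ex : ‖ex m n‖ = 1 := by simp [ex]
lemma norm_ez : ‖ez m n‖ = 1 := by simp [ez]

/-- closed embedding of the translates -/
lemma isClosedEmbedding_tr (p : E m n) : IsClosedEmbedding fun t : Fin m → ℝ => p + tr m n t := by
  have h : AntilipschitzWith 1 fun t : Fin m → ℝ => p + tr m n t := by
    refine AntilipschitzWith.of_le_mul_dist fun s t => ?_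
    rw [NNReal.coe_one, one_mul, dist_pi_le_iff dist_nonneg]
    intro j
    rw [dist_add_left, EuclideanSpace.dist_eq]
    refine Real.le_sqrt_of_sq_le ?_
    have h1 := Finset.single_le_sum (s := Finset.univ)
      (f := fun i => dist ((tr m n s).ofLp i) ((tr m n t).ofLp i) ^ 2)
      (fun i _ => sq_nonneg _) (Finset.mem_univ (Sum.inl j.succ))
    simpa using h1
  refine h.isClosedEmbedding ?_
  have : LipschitzWith (m : ℝ≥0) fun t : Fin m → ℝ => p + tr m n t := by
    refine LipschitzWith.of_dist_le_mul fun s t => ?_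
    rw [dist_add_left, dist_eq_norm]
    have : tr m n s - tr m n t = ∑ j, (s j - t j) • et m n j := by
      simp only [tr, ← Finset.sum_sub_distrib, sub_smul]
    rw [this]
    refine (norm_sum_le _ _).trans ?_
    have : ∀ j ∈ (Finset.univ : Finset (Fin m)), ‖(s j - t j) • et m n j‖ ≤ dist s t := by
      intro j _
      rw [norm_smul, norm_et, mul_one, Real.norm_eq_abs, ← Real.dist_eq]
      exact dist_le_pi_dist s t j
    refine (Finset.sum_le_card_nsmul _ _ _ this).trans ?_
    simp
  exact this.uniformContinuous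

/-- closed embedding of the plane of a strip -/
lemma isClosedEmbedding_strip (a b : ℝ) {c d : ℝ} (hu : c ^ 2 + d ^ 2 = 1) :
    IsClosedEmbedding fun z : ℝ × (Fin m → ℝ) =>
      emb m n (a + z.1 * c) (b + z.1 * d) + tr m n z.2 := by
  have key : ∀ z y : ℝ × (Fin m → ℝ),
      (emb m n (a + z.1 * c) (b + z.1 * d) + tr m n z.2)
        - (emb m n (a + y.1 * c) (b + y.1 * d) + tr m n y.2)
      = (z.1 - y.1) • emb m n c d + ∑ j, (z.2 j - y.2 j) • et m n j := by
    intro z y
    have : tr m n z.2 - tr m n y.2 = ∑ j, (z.2 j - y.2 j) • et m n j := by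
      simp only [tr, ← Finset.sum_sub_distrib, sub_smul]
    rw [← this]
    simp only [emb]; module
  have hn : ‖emb m n c d‖ = 1 := by
    have := inner_emb_emb (m := m) (n := n) c d c d
    rw [real_inner_self_eq_norm_sq] at this
    have h2 : ‖emb m n c d‖ ^ 2 = 1 := by rw [this]; nlinarith
    nlinarith [norm_nonneg (emb m n c d)]
  have h : AntilipschitzWith 1 fun z : ℝ × (Fin m → ℝ) =>
      emb m n (a + z.1 * c) (b + z.1 * d) + tr m n z.2 := by
    refine AntilipschitzWith.of_le_mul_dist fun z y => ?_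
    rw [NNReal.coe_one, one_mul, Prod.dist_eq, max_le_iff, dist_pi_le_iff dist_nonneg]
    rw [dist_eq_norm (emb m n (a + z.1 * c) (b + z.1 * d) + tr m n z.2), key]
    constructor
    · rw [Real.dist_eq]
      have h1 : ⟪(z.1 - y.1) • emb m n c d + ∑ j, (z.2 j - y.2 j) • et m n j, emb m n c d⟫
          = z.1 - y.1 := by
        rw [inner_add_left, inner_smul_left, sum_inner]
        simp only [inner_smul_left, inner_et_emb, mul_zero, Finset.sum_const_zero,
          real_inner_self_eq_norm_sq, hn]
        simp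
      have h2 := abs_real_inner_le_norm
        ((z.1 - y.1) • emb m n c d + ∑ j, (z.2 j - y.2 j) • et m n j) (emb m n c d)
      rw [h1, hn, mul_one] at h2
      exact h2
    · intro j
      rw [Real.dist_eq]
      have h1 : ⟪(z.1 - y.1) • emb m n c d + ∑ j, (z.2 j - y.2 j) • et m n j, et m n j⟫
          = z.2 j - y.2 j := by
        rw [inner_add_left, inner_smul_left, sum_inner]
        simp only [inner_smul_left, inner_emb_et, inner_et_et, mul_zero]
        simp
      have h2 := abs_real_inner_le_norm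
        ((z.1 - y.1) • emb m n c d + ∑ j, (z.2 j - y.2 j) • et m n j) (et m n j)
      rw [h1, norm_et, mul_one] at h2
      exact h2
  refine h.isClosedEmbedding ?_
  have : LipschitzWith (1 + m : ℝ≥0) fun z : ℝ × (Fin m → ℝ) =>
      emb m n (a + z.1 * c) (b + z.1 * d) + tr m n z.2 := by
    refine LipschitzWith.of_dist_le_mul fun z y => ?_
    rw [dist_eq_norm, key]
    refine (norm_add_le _ _).trans ?_
    have h1 : ‖(z.1 - y.1) • emb m n c d‖ ≤ dist z y := by
      rw [norm_smul, hn, mul_one, Real.norm_eq_abs, ← Real.dist_eq, Prod.dist_eq]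
      exact le_max_left _ _
    have h2 : ‖∑ j, (z.2 j - y.2 j) • et m n j‖ ≤ m * dist z y := by
      refine (norm_sum_le _ _).trans ?_
      have : ∀ j ∈ (Finset.univ : Finset (Fin m)), ‖(z.2 j - y.2 j) • et m n j‖ ≤ dist z y := by
        intro j _
        rw [norm_smul, norm_et, mul_one, Real.norm_eq_abs, ← Real.dist_eq, Prod.dist_eq]
        exact (dist_le_pi_dist z.2 y.2 j).trans (le_max_right _ _)
      refine (Finset.sum_le_card_nsmul _ _ _ this).trans ?_
      simp
    push_cast
    linarith
  exact this.uniformContinuous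

end Pool.Agent.SP74

end
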