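import Pool.Agent.SP74.Edge

/-!
# The first variation of a strip is a difference of values at the two ends
-/

set_option autoImplicit false

noncomputable section

open MeasureTheory Set Filter Topology
open scoped ENNReal NNReal RealInnerProductSpace

namespace Pool.Agent.SP74

variable {m n : ℕ} {X : E m n → E m n}

lemma hcs_inner {Y : Type} [TopologicalSpace Y] {f : Y → E m n} (h : HasCompactSupport f)
    (c : E m n) : HasCompactSupport fun y => ⟪f y, c⟫ :=
  h.comp_left (g := fun v => ⟪v, c⟫) (by simp)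

lemma integrable_Phi (hX : Continuous X) (hc : HasCompactSupport X) (c : E m n) (a b : ℝ) :
    Integrable fun t : Fin m → ℝ => ⟪X (emb m n a b + tr m n t), c⟫ := by
  have h1 : Continuous fun t : Fin m → ℝ => X (emb m n a b + tr m n t) :=
    hX.comp (continuous_const.add continuous_tr)
  have h2 : HasCompactSupport fun t : Fin m → ℝ => X (emb m n a b + tr m n t) :=
    hc.comp_isClosedEmbedding (isClosedEmbedding_tr _)
  exact (h1.inner continuous_const).integrable_of_hasCompactSupport (hcs_inner h2 c)

lemma Phi_lin (hX : Continuous X) (hc : HasCompactSupport X) (c d a b : ℝ) :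
    Phi X (emb m n c d) a b = c * Phi X (ex m n) a b + d * Phi X (ez m n) a b := by
  simp only [Phi]
  rw [← integral_const_mul, ← integral_const_mul, ← integral_add]
  · refine integral_congr_ae (Eventually.of_forall fun t => ?_)
    simp only [emb, inner_add_right, inner_smul_right]
  · exact (integrable_Phi hX hc _ a b).const_mul _
  · exact (integrable_Phi hX hc _ a b).const_mul _

lemma tr_add_single (t : Fin m → ℝ) (j : Fin m) (s : ℝ) :
    tr m n (t + s • Pi.single j 1) = tr m n t + s • et m n j := by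
  simp only [tr, Pi.add_apply, Pi.smul_apply, smul_eq_mul, add_smul, Finset.sum_add_distrib]
  congr 1
  rw [Finset.sum_eq_single j]
  · simp
  · intro i _ hi
    simp [Pi.single_eq_of_ne hi]
  · simp

lemma trans_zero (hX : ContDiff ℝ 1 X) (hc : HasCompactSupport X) (p : E m n) (j : Fin m) :
    ∫ t : Fin m → ℝ, ⟪fderiv ℝ X (p + tr m n t) (et m n j), et m n j⟫ = 0 := by
  have hcl := isClosedEmbedding_tr (n := n) p
  have hf : Continuous fun t : Fin m → ℝ => fderiv ℝ X (p + tr m n t) (et m n j) :=
    ((hX.continuous_fderiv one_ne_zero).comp (continuous_const.add continuous_tr)).clm_apply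
      continuous_const
  have hfc : HasCompactSupport fun t : Fin m → ℝ => fderiv ℝ X (p + tr m n t) (et m n j) :=
    ((hc.fderiv ℝ).comp_isClosedEmbedding hcl).comp_left
      (g := fun L : E m n →L[ℝ] E m n => L (et m n j)) (by simp)
  have h2 : HasCompactSupport fun t : Fin m → ℝ => X (p + tr m n t) :=
    hc.comp_isClosedEmbedding hcl
  have hXc : Continuous fun t : Fin m → ℝ => X (p + tr m n t) :=
    hX.continuous.comp (continuous_const.add continuous_tr)
  have i1 : Integrable fun t : Fin m → ℝ =>
      ⟪fderiv ℝ X (p + tr m n t) (et m n j), et m n j⟫ :=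
    (hf.inner (𝕜 := ℝ) continuous_const).integrable_of_hasCompactSupport
      (hcs_inner hfc (et m n j))
  have i2 : Integrable fun t : Fin m → ℝ => ⟪X (p + tr m n t), et m n j⟫ :=
    (hXc.inner (𝕜 := ℝ) continuous_const).integrable_of_hasCompactSupport
      (hcs_inner h2 (et m n j))
  have key := integral_bilinear_hasLineDerivAt_right_eq_neg_left_of_integrable
    (μ := (volume : Measure (Fin m → ℝ))) (B := ContinuousLinearMap.mul ℝ ℝ)
    (f := fun _ => (1 : ℝ)) (f' := fun _ => (0 : ℝ)) (v := Pi.single j 1)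
    (g := fun t => ⟪X (p + tr m n t), et m n j⟫)
    (g' := fun t => ⟪fderiv ℝ X (p + tr m n t) (et m n j), et m n j⟫)
    (by simp) (by simpa using i1) (by simpa using i2)
    (fun t _ => by
      simpa using (hasFDerivAt_const (1 : ℝ) t).hasLineDerivAt (Pi.single j 1))
    (fun t _ => by
      unfold HasLineDerivAt
      simp only [tr_add_single]
      have h1 : HasDerivAt (fun s : ℝ => p + (tr m n t + s • et m n j)) (et m n j) 0 := by
        have := (((hasDerivAt_id (0 : ℝ)).smul_const (et m n j)).const_add (tr m n t)).const_add p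
        simpa using this
      have h2 : HasFDerivAt X (fderiv ℝ X (p + tr m n t)) (p + (tr m n t + (0 : ℝ) • et m n j)) := by
        rw [zero_smul, add_zero]
        exact (hX.differentiable one_ne_zero _).hasFDerivAt
      have h3 := (h2.comp_hasDerivAt (0 : ℝ) h1).inner ℝ (hasDerivAt_const (0 : ℝ) (et m n j))
      simpa using h3)
  simpa using key

lemma ftc_line (hX : ContDiff ℝ 1 X) (a b c d ℓ : ℝ) (hℓ : 0 ≤ ℓ) (q e : E m n) :
    ∫ s in Ioo 0 ℓ, ⟪fderiv ℝ X (emb m n (a + s * c) (b + s * d) + q) (emb m n c d), e⟫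
      = ⟪X (emb m n (a + ℓ * c) (b + ℓ * d) + q), e⟫ - ⟪X (emb m n a b + q), e⟫ := by
  rw [← integral_Ioc_eq_integral_Ioo, ← intervalIntegral.integral_of_le hℓ]
  have hd : ∀ s : ℝ, HasDerivAt (fun s : ℝ => ⟪X (emb m n (a + s * c) (b + s * d) + q), e⟫)
      ⟪fderiv ℝ X (emb m n (a + s * c) (b + s * d) + q) (emb m n c d), e⟫ s := by
    intro s
    have h1 : HasDerivAt (fun s : ℝ => emb m n (a + s * c) (b + s * d) + q) (emb m n c d) s := by
      have := (((hasDerivAt_id s).smul_const (emb m n c d)).const_add (emb m n a b)).add_const q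
      simp only [id_eq, emb_add, one_smul] at this
      exact this
    have h2 : HasFDerivAt X (fderiv ℝ X (emb m n (a + s * c) (b + s * d) + q))
        (emb m n (a + s * c) (b + s * d) + q) := (hX.differentiable one_ne_zero _).hasFDerivAt
    have h3 := (h2.comp_hasDerivAt s h1).inner ℝ (hasDerivAt_const s e)
    simpa using h3
  have hcont : Continuous fun s : ℝ =>
      ⟪fderiv ℝ X (emb m n (a + s * c) (b + s * d) + q) (emb m n c d), e⟫ := by
    have h0 : Continuous fun s : ℝ => emb m n (a + s * c) (b + s * d) + q :=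
      (continuous_emb.comp (by fun_prop : Continuous fun s : ℝ => (a + s * c, b + s * d))).add
        continuous_const
    exact (((hX.continuous_fderiv one_ne_zero).comp h0).clm_apply continuous_const).inner
      continuous_const
  rw [intervalIntegral.integral_eq_sub_of_hasDerivAt (fun s _ => hd s)
    (hcont.intervalIntegrable _ _)]
  simp

/-- the first variation of a strip -/
theorem seg_fv (hX : ContDiff ℝ 1 X) (hc : HasCompactSupport X) (w a b c d ℓ : ℝ) (hw : 0 < w)
    (hu : c ^ 2 + d ^ 2 = 1) (hℓ : 0 ≤ ℓ) :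
    (seg m n w a b c d ℓ hw hu).fv X
      = w * (Phi X (emb m n c d) (a + ℓ * c) (b + ℓ * d) - Phi X (emb m n c d) a b) := by
  set L : ℝ × (Fin m → ℝ) → E m n := fun z =>
    emb m n (a + z.1 * c) (b + z.1 * d) + tr m n z.2 with hL
  have hLe : IsClosedEmbedding L := isClosedEmbedding_strip a b hu
  have hcont : ∀ e : E m n, Continuous fun z : ℝ × (Fin m → ℝ) => ⟪fderiv ℝ X (L z) e, e⟫ :=
    fun e => (((hX.continuous_fderiv one_ne_zero).comp hLe.continuous).clm_apply
      continuous_const).inner continuous_const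
  have hcs : ∀ e : E m n, HasCompactSupport fun z : ℝ × (Fin m → ℝ) => ⟪fderiv ℝ X (L z) e, e⟫ :=
    fun e => ((hc.fderiv ℝ).comp_isClosedEmbedding hLe).comp_left
      (g := fun M : E m n →L[ℝ] E m n => ⟪M e, e⟫) (by simp)
  have hint : ∀ e : E m n, Integrable (fun z : ℝ × (Fin m → ℝ) => ⟪fderiv ℝ X (L z) e, e⟫) :=
    fun e => (hcont e).integrable_of_hasCompactSupport (hcs e)
  have hmp := volume_preserving_piFinSuccAbove (fun _ : Fin (m + 1) => ℝ) 0
  have hme := (MeasurableEquiv.piFinSuccAbove (fun _ : Fin (m + 1) => ℝ) 0).measurableEmbedding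
  have e1 : (∫ t in (seg m n w a b c d ℓ hw hu).A,
      ∑ j, ⟪fderiv ℝ X ((seg m n w a b c d ℓ hw hu).pos t) ((seg m n w a b c d ℓ hw hu).v j),
        (seg m n w a b c d ℓ hw hu).v j⟫)
      = ∫ z in Ioo 0 ℓ ×ˢ (univ : Set (Fin m → ℝ)),
        (⟪fderiv ℝ X (L z) (emb m n c d), emb m n c d⟫
          + ∑ j, ⟪fderiv ℝ X (L z) (et m n j), et m n j⟫) := by
    rw [← hmp.setIntegral_preimage_emb hme]
    have hA : (seg m n w a b c d ℓ hw hu).A
        = (MeasurableEquiv.piFinSuccAbove (fun _ : Fin (m + 1) => ℝ) 0) ⁻¹'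
          (Ioo 0 ℓ ×ˢ (univ : Set (Fin m → ℝ))) := by
      ext t
      simp [seg, MeasurableEquiv.piFinSuccAbove]
    rw [hA]
    refine integral_congr_ae (Eventually.of_forall fun t => ?_)
    simp only [seg_pos, Fin.sum_univ_succ]
    simp only [seg, frame, Fin.cons_zero, Fin.cons_succ]
    rfl
  have e2 : ∀ e : E m n, IntegrableOn (fun z : ℝ × (Fin m → ℝ) => ⟪fderiv ℝ X (L z) e, e⟫)
      (Ioo 0 ℓ ×ˢ (univ : Set (Fin m → ℝ))) := fun e => (hint e).integrableOn
  have e3 : (∫ z in Ioo 0 ℓ ×ˢ (univ : Set (Fin m → ℝ)),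
        (⟪fderiv ℝ X (L z) (emb m n c d), emb m n c d⟫
          + ∑ j, ⟪fderiv ℝ X (L z) (et m n j), et m n j⟫))
      = Phi X (emb m n c d) (a + ℓ * c) (b + ℓ * d) - Phi X (emb m n c d) a b := by
    rw [integral_add (e2 _) (integrable_finsetSum _ fun j _ => e2 (et m n j)),
      integral_finsetSum _ fun j _ => e2 (et m n j)]
    have z1 : ∀ j : Fin m, (∫ z in Ioo 0 ℓ ×ˢ (univ : Set (Fin m → ℝ)),
        ⟪fderiv ℝ X (L z) (et m n j), et m n j⟫) = 0 := by
      intro j
      have := setIntegral_prod (μ := (volume : Measure ℝ))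
        (ν := (volume : Measure (Fin m → ℝ))) _ (e2 (et m n j))
      rw [Measure.volume_eq_prod, this]
      simp only [hL, Measure.restrict_univ, trans_zero hX hc, integral_zero]
    rw [Finset.sum_eq_zero fun j _ => z1 j, add_zero]
    have s1 := e2 (emb m n c d)
    rw [Measure.volume_eq_prod] at s1 ⊢
    rw [← Measure.prod_restrict, integral_prod_symm]
    · simp only [Measure.restrict_univ, hL]
      rw [Phi, Phi, ← integral_sub (integrable_Phi hX.continuous hc _ _ _)
        (integrable_Phi hX.continuous hc _ _ _)]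
      refine integral_congr_ae (Eventually.of_forall fun t => ?_)
      exact ftc_line hX a b c d ℓ hℓ (tr m n t) (emb m n c d)
    · rw [Measure.prod_restrict]
      exact s1
  rw [Flat.fv, e1, e3]
  rfl

/-- `Phi` is Lipschitz -/
theorem Phi_lip (hX : ContDiff ℝ 1 X) (hc : HasCompactSupport X) :
    ∃ K : ℝ, 0 ≤ K ∧ ∀ e : E m n, ‖e‖ ≤ 1 → ∀ a b c d : ℝ,
      |Phi X e a b - Phi X e c d| ≤ K * (|a - c| + |b - d|) := by
  obtain ⟨C, hC⟩ := hX.lipschitzWith_of_hasCompactSupport hc one_ne_zero
  obtain ⟨R, hR0, hR⟩ := hc.isCompact.isBounded.subset_closedBall_lt 0 (0 : E m n)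
  set B : Set (Fin m → ℝ) := Metric.closedBall 0 R with hB
  have hBfin : volume B ≠ ⊤ := (isCompact_closedBall (0 : Fin m → ℝ) R).measure_lt_top.ne
  refine ⟨C * (volume.real B), by positivity, fun e he a b c d => ?_⟩
  have hout : ∀ a b : ℝ, ∀ t : Fin m → ℝ, t ∉ B → X (emb m n a b + tr m n t) = 0 := by
    intro a b t ht
    by_contra hne
    apply ht
    have h1 : emb m n a b + tr m n t ∈ Metric.closedBall (0 : E m n) R :=
      hR (subset_tsupport _ hne)
    rw [mem_closedBall_zero_iff] at h1
    rw [hB, mem_closedBall_zero_iff, pi_norm_le_iff_of_nonneg hR0.le]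
    intro j
    refine le_trans ?_ h1
    have := EuclideanSpace.norm_eq (emb m n a b + tr m n t)
    rw [this]
    refine Real.le_sqrt_of_sq_le ?_
    have h2 := Finset.single_le_sum (s := Finset.univ)
      (f := fun i => ‖(emb m n a b + tr m n t).ofLp i‖ ^ 2)
      (fun i _ => sq_nonneg _) (Finset.mem_univ (Sum.inl j.succ))
    simpa using h2
  have hset : ∀ a b : ℝ, Phi X e a b = ∫ t in B, ⟪X (emb m n a b + tr m n t), e⟫ := by
    intro a b
    rw [Phi]
    refine (setIntegral_eq_integral_of_forall_compl_eq_zero fun t ht => ?_).symm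
    rw [hout a b t ht, inner_zero_left]
  rw [hset, hset, ← integral_sub (integrable_Phi hX.continuous hc _ _ _).integrableOn
    (integrable_Phi hX.continuous hc _ _ _).integrableOn, ← Real.norm_eq_abs]
  refine (norm_setIntegral_le_of_norm_le_const (C := C * (|a - c| + |b - d|))
    hBfin.lt_top fun t _ => ?_).trans (le_of_eq ?_)
  · rw [← inner_sub_left]
    refine (norm_inner_le_norm _ _).trans ?_
    have h1 : ‖X (emb m n a b + tr m n t) - X (emb m n c d + tr m n t)‖
        ≤ C * (|a - c| + |b - d|) := by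
      rw [← dist_eq_norm]
      refine (hC.dist_le_mul _ _).trans ?_
      gcongr
      rw [dist_add_right, dist_eq_norm]
      have : emb m n a b - emb m n c d = (a - c) • ex m n + (b - d) • ez m n := by
        simp only [emb]; module
      rw [this]
      refine (norm_add_le _ _).trans ?_
      rw [norm_smul, norm_smul, norm_ex, norm_ez, mul_one, mul_one]
      rfl
    calc _ ≤ (C * (|a - c| + |b - d|)) * 1 := by gcongr
      _ = _ := mul_one _
  · ring

/-- `Phi` vanishes at the points outside of the ball in which the field is supported -/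
lemma Phi_zero_of_far (hs : tsupport X ⊆ Metric.ball 0 1) (e : E m n) {a b : ℝ} (ha : 1 ≤ |a|) :
    Phi X e a b = 0 := by
  rw [Phi]
  have : ∀ t : Fin m → ℝ, ⟪X (emb m n a b + tr m n t), e⟫ = 0 := by
    intro t
    have hz : X (emb m n a b + tr m n t) = 0 := by
      by_contra hne
      have h1 : emb m n a b + tr m n t ∈ Metric.ball (0 : E m n) 1 := hs (subset_tsupport _ hne)
      rw [mem_ball_zero_iff] at h1
      have h2 : |a| ≤ ‖emb m n a b + tr m n t‖ := by
        rw [EuclideanSpace.norm_eq]
        refine Real.le_sqrt_of_sq_le ?_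
        have h2 := Finset.single_le_sum (s := Finset.univ)
          (f := fun i => ‖(emb m n a b + tr m n t).ofLp i‖ ^ 2)
          (fun i _ => sq_nonneg _) (Finset.mem_univ (Sum.inl 0))
        simpa using h2
      linarith
    rw [hz, inner_zero_left]
  simp [this]

end Pool.Agent.SP74

end
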