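import Pool.Agent.SP74.Mass

/-!
# The truss with heights below a given function
-/

set_option autoImplicit false

noncomputable section

open MeasureTheory Set Filter Topology
open scoped ENNReal NNReal RealInnerProductSpace

namespace Pool.Agent.SP74

variable {m n : ℕ}

lemma mult_eq {η : ℕ → ℝ} (h : Good η) (x : E m n)
    (hfin : {i : Ix | x ∈ (truss m n h i).carrier}.Finite) :
    mult (truss m n h) x = ∑ i ∈ hfin.toFinset, (truss m n h i).w := by
  rw [mult, tsum_eq_sum (s := hfin.toFinset)]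
  · refine Finset.sum_congr rfl fun i hi => ?_
    rw [Finite.mem_toFinset] at hi
    rw [indicator_of_mem (show x ∈ (truss m n h i).carrier from hi)]
  · intro i hi
    rw [Finite.mem_toFinset] at hi
    exact indicator_of_notMem (show x ∉ (truss m n h i).carrier from hi) _

/-- the heights -/
def eta (ω : ℝ → ℝ) (κ : ℝ) (k : ℕ) : ℝ := κ * (1 / 16) ^ k * min 1 (ω (xx (k + 1)))

lemma xx_anti {k l : ℕ} (h : k ≤ l) : xx l ≤ xx k := by
  unfold xx; exact pow_le_pow_of_le_one (by norm_num) (by norm_num) h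

lemma two_pow_eta_le {ω : ℝ → ℝ} {κ : ℝ} (hκ : 0 < κ) (hpos : ∀ r, 0 < r → 0 < ω r) (k : ℕ) :
    2 ^ k * eta ω κ k ≤ κ * min 1 (ω (xx (k + 1))) := by
  have hc : 0 < min 1 (ω (xx (k + 1))) := lt_min one_pos (hpos _ (xx_pos _))
  have e : 2 ^ k * eta ω κ k = (1 / 8 : ℝ) ^ k * (κ * min 1 (ω (xx (k + 1)))) := by
    rw [eta]
    have : (2 : ℝ) ^ k * (1 / 16) ^ k = (1 / 8) ^ k := by rw [← mul_pow]; norm_num
    rw [← this]; ring
  rw [e]
  have h1 : (1 / 8 : ℝ) ^ k ≤ 1 := pow_le_one₀ (by norm_num) (by norm_num)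
  have h2 : 0 < κ * min 1 (ω (xx (k + 1))) := mul_pos hκ hc
  nlinarith

lemma eta_good {ω : ℝ → ℝ} {κ : ℝ} (hκ : 0 < κ) (hκ8 : κ ≤ 1 / 8) (hmono : Monotone ω)
    (hpos : ∀ r, 0 < r → 0 < ω r) : Good (eta ω κ) := by
  have hc : ∀ k, 0 < min 1 (ω (xx (k + 1))) := fun k => lt_min one_pos (hpos _ (xx_pos _))
  refine ⟨fun k => ?_, fun k => ?_, fun k => ?_⟩
  · have := hc k
    unfold eta; positivity
  · have h1 : min 1 (ω (xx (k + 1 + 1))) ≤ min 1 (ω (xx (k + 1))) :=
      min_le_min_left _ (hmono (xx_anti (by omega)))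
    rw [eta, eta, pow_succ]
    have h2 : (0 : ℝ) < κ * (1 / 16) ^ k := by positivity
    have := mul_le_mul_of_nonneg_left h1 h2.le
    linarith
  · refine (two_pow_eta_le hκ hpos k).trans ?_
    have := hc k
    have h1 : min 1 (ω (xx (k + 1))) ≤ 1 := min_le_left _ _
    nlinarith

theorem main (m n : ℕ) (ω : ℝ → ℝ) (hmono : Monotone ω) (hpos : ∀ r, 0 < r → 0 < ω r) :
    ∃ (ι : Type) (_ : Countable ι) (V : ι → Flat (m + 1) (E m n)),
      StationaryIn (Metric.ball 0 1) V ∧ LocFinite V ∧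
      ∀ r, 0 < r → r ≤ 1 → NearInt V r (ω r) ∧ NearPlane V r (ω r) ∧
        contactInt V r ≤ ENNReal.ofReal (ω r) ∧ 0 < offMass V r := by
  set κ : ℝ := 1 / (160 * 2 ^ m) with hκ
  have h2m : (1 : ℝ) ≤ 2 ^ m := one_le_pow₀ (by norm_num)
  have hκ0 : 0 < κ := by positivity
  have hκ1 : κ ≤ 1 / 160 := by
    rw [hκ]; exact one_div_le_one_div_of_le (by norm_num) (by linarith)
  have h : Good (eta ω κ) := eta_good hκ0 (by linarith) hmono hpos
  have hc0 : ∀ k, 0 < min 1 (ω (xx (k + 1))) := fun k => lt_min one_pos (hpos _ (xx_pos _))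
  have hc1 : ∀ k, min 1 (ω (xx (k + 1))) ≤ 1 := fun k => min_le_left _ _
  have hcω : ∀ k r, xx (k + 1) < r → min 1 (ω (xx (k + 1))) ≤ ω r := fun k r hr =>
    (min_le_right _ _).trans (hmono hr.le)
  have hcs : ∀ k, min 1 (ω (xx (k + 1 + 1))) ≤ min 1 (ω (xx (k + 1))) := fun k =>
    min_le_min_left _ (hmono (xx_anti (by omega)))
  have hfin : ∀ x : E m n, {i : Ix | x ∈ (truss m n h i).carrier}.Finite := fun x =>
    finite_of_encard_le_coe (k := 20) (carrier_card h x)
  have h2η : ∀ k r, xx (k + 1) < r → 2 ^ k * eta ω κ k ≤ κ * ω r := fun k r hr =>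
    (two_pow_eta_le hκ0 hpos k).trans (mul_le_mul_of_nonneg_left (hcω k r hr) hκ0.le)
  have hη1 : ∀ k, eta ω κ (k + 1) ≤ κ * min 1 (ω (xx (k + 1))) := by
    intro k
    have e1 : eta ω κ (k + 1) = (1 / 16 : ℝ) ^ (k + 1) * (κ * min 1 (ω (xx (k + 1 + 1)))) := by
      rw [eta]; ring
    have e2 : (1 / 16 : ℝ) ^ (k + 1) ≤ 1 := pow_le_one₀ (by norm_num) (by norm_num)
    have e3 : κ * min 1 (ω (xx (k + 1 + 1))) ≤ κ * min 1 (ω (xx (k + 1))) :=
      mul_le_mul_of_nonneg_left (hcs k) hκ0.le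
    have e4 : 0 < κ * min 1 (ω (xx (k + 1 + 1))) := mul_pos hκ0 (hc0 _)
    rw [e1]; nlinarith
  refine ⟨Ix, inferInstance, truss m n h, truss_stationary h, ⟨weight_ball_lt_top h, hfin⟩, ?_⟩
  intro r hr hr1
  have hω : 0 < ω r := hpos r hr
  refine ⟨?_, ?_, ?_, weight_off_plane h hr⟩
  · rintro x hx ⟨i₀, hi₀⟩
    rw [mult_eq h x (hfin x)]
    set S := (hfin x).toFinset with hS
    have hmem : ∀ i ∈ S, x ∈ (truss m n h i).carrier := fun i hi => by
      rw [hS, Finite.mem_toFinset] at hi; exact hi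
    have hi₀S : i₀ ∈ S := by rw [hS, Finite.mem_toFinset]; exact hi₀
    have hcard : S.card ≤ 20 := by
      have h1 := carrier_card h x
      rw [(hfin x).encard_eq_coe_toFinset_card] at h1
      exact_mod_cast h1
    have hw : ∀ i, (truss m n h i).w = (dat (eta ω κ) i.1 i.2.1).w := fun i => rfl
    constructor
    · have h1 : (truss m n h i₀).w ≤ ∑ i ∈ S, (truss m n h i).w :=
        Finset.single_le_sum (f := fun i => (truss m n h i).w)
          (fun i _ => (truss m n h i).w_pos.le) hi₀S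
      have h2 := dat_w_ge h i₀.1 i₀.2.1
      rw [hw] at h1
      exact h2.trans h1
    · refine ⟨∑ i ∈ S, near i.2.1, ?_, ?_⟩
      · exact Finset.sum_pos (fun i _ => near_pos _) ⟨i₀, hi₀S⟩
      · push_cast
        rw [← Finset.sum_sub_distrib]
        refine (Finset.abs_sum_le_sum_abs _ _).trans ?_
        have hb : ∀ i ∈ S, |(truss m n h i).w - near i.2.1| ≤ 8 * (κ * ω r) := by
          intro i hi
          rw [hw]
          refine (dat_near h i.1 i.2.1).trans ?_
          have h1 := carrier_norm h i (hmem i hi)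
          have h2 : ‖x‖ < r := mem_ball_zero_iff.1 hx
          have := h2η i.1 r (h1.trans h2)
          linarith
        refine (Finset.sum_le_card_nsmul _ _ _ hb).trans ?_
        rw [nsmul_eq_mul]
        have h3 : (S.card : ℝ) ≤ 20 := by exact_mod_cast hcard
        have h4 : 0 < κ * ω r := mul_pos hκ0 hω
        have h5 : κ * ω r ≤ 1 / 160 * ω r := mul_le_mul_of_nonneg_right hκ1 hω.le
        calc (S.card : ℝ) * (8 * (κ * ω r)) ≤ 20 * (8 * (κ * ω r)) := by gcongr
          _ ≤ _ := by linarith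
  · rintro i x ⟨hxi, hx⟩
    have h1 := carrier_norm h i hxi
    have h2 : ‖x‖ < r := mem_ball_zero_iff.1 hx
    have h3 := h1.trans h2
    constructor
    · refine (carrier_infDist h i hxi).trans ((hη1 i.1).trans ?_)
      have := mul_le_mul_of_nonneg_left (hcω i.1 r h3) hκ0.le
      nlinarith
    · intro j l
      refine (truss_tilt h i j l).trans ?_
      have := h2η i.1 r h3
      nlinarith
  · refine (contact h hr hr1 (C := κ ^ 2 * ω r) (by positivity) fun k hk => ?_).trans ?_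
    · have e1 := hη1 k
      have e2 := (h.pos (k + 1)).le
      have e3 := hcω k r hk
      calc eta ω κ (k + 1) ^ 2 ≤ (κ * min 1 (ω (xx (k + 1)))) ^ 2 := by gcongr
        _ = κ ^ 2 * (min 1 (ω (xx (k + 1))) * min 1 (ω (xx (k + 1)))) := by ring
        _ ≤ κ ^ 2 * (1 * ω r) := by
            have := (hc0 k).le
            have := hc1 k
            gcongr
        _ = _ := by ring
    · refine ENNReal.ofReal_le_ofReal ?_
      have e : 160 * 2 ^ m * (κ ^ 2 * ω r) = κ * ω r := by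
        rw [hκ]; field_simp
      rw [e]; nlinarith

end Pool.Agent.SP74

end
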