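import Pool.Agent.SP74.Truss

/-!
# Mass and height of the truss
-/

set_option autoImplicit false

noncomputable section

open MeasureTheory Set Filter Topology
open scoped ENNReal NNReal RealInnerProductSpace

namespace Pool.Agent.SP74

variable {m n : ℕ} {η : ℕ → ℝ}

lemma Flat.continuous_pos {d : ℕ} {F : Type} [NormedAddCommGroup F] [InnerProductSpace ℝ F]
    (P : Flat d F) : Continuous P.pos := by
  unfold Flat.pos; fun_prop

lemma abs_coord_le (x : E m n) (i : Fin (m + 1) ⊕ Fin (n + 1)) : |x i| ≤ ‖x‖ := by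
  rw [EuclideanSpace.norm_eq]
  refine Real.le_sqrt_of_sq_le ?_
  have h2 := Finset.single_le_sum (s := Finset.univ)
    (f := fun i => ‖x.ofLp i‖ ^ 2) (fun i _ => sq_nonneg _) (Finset.mem_univ i)
  simpa using h2

@[simp] lemma emb_inr_ne (a b : ℝ) {j : Fin (n + 1)} (hj : j ≠ 0) :
    emb m n a b (Sum.inr j) = 0 := by
  simp [emb, ex, ez, hj]

lemma mass_apply (P : Flat (m + 1) (E m n)) {S : Set (E m n)} (hS : MeasurableSet S) :
    P.mass S = ENNReal.ofReal P.w * volume (P.pos ⁻¹' S ∩ P.A) := by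
  rw [Flat.mass, Measure.smul_apply, Measure.map_apply P.continuous_pos.measurable hS,
    Measure.restrict_apply (P.continuous_pos.measurable hS), smul_eq_mul]

lemma seg_mass_ball (w a b c d ℓ : ℝ) (hw : 0 < w) (hu : c ^ 2 + d ^ 2 = 1) (hℓ : 0 ≤ ℓ)
    {r : ℝ} (hr : 0 < r) :
    (seg m n w a b c d ℓ hw hu).mass (Metric.ball 0 r) ≤ ENNReal.ofReal (w * ℓ * (2 * r) ^ m) := by
  rw [mass_apply _ Metric.isOpen_ball.measurableSet]
  have hsub : (seg m n w a b c d ℓ hw hu).pos ⁻¹' Metric.ball 0 r ∩ (seg m n w a b c d ℓ hw hu).A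
      ⊆ Set.pi univ (Fin.cons (Ioo 0 ℓ) (fun _ : Fin m => Ioo (-r) r) :
        Fin (m + 1) → Set ℝ) := by
    rintro t ⟨h1, h2⟩ i -
    refine Fin.cases ?_ (fun j => ?_) i
    · exact h2
    · rw [mem_preimage, mem_ball_zero_iff] at h1
      have h3 := abs_coord_le ((seg m n w a b c d ℓ hw hu).pos t) (Sum.inl j.succ)
      rw [seg_pos] at h3 h1
      simp only [PiLp.add_apply, emb_inl_succ, tr_inl_succ, zero_add] at h3
      rw [Fin.cons_succ]
      exact abs_lt.1 (h3.trans_lt h1)
  have hvol : volume (Set.pi univ (Fin.cons (Ioo 0 ℓ) (fun _ : Fin m => Ioo (-r) r) :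
        Fin (m + 1) → Set ℝ)) = ENNReal.ofReal (ℓ * (2 * r) ^ m) := by
    rw [volume_pi_pi, Fin.prod_univ_succ]
    simp only [Fin.cons_zero, Fin.cons_succ, Real.volume_Ioo, Finset.prod_const, Finset.card_univ,
      Fintype.card_fin, sub_zero]
    rw [ENNReal.ofReal_mul hℓ, ENNReal.ofReal_pow (by positivity)]
    congr 3
    ring
  calc _ ≤ ENNReal.ofReal w * ENNReal.ofReal (ℓ * (2 * r) ^ m) := by
        rw [← hvol]
        exact mul_le_mul_right (measure_mono hsub) _
    _ = _ := by rw [← ENNReal.ofReal_mul hw.le]; congr 1; ring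

lemma conv_a (D : Dat) {t : ℝ} (hl : 0 < D.l) :
    D.a + t * D.c = (1 - t / D.l) * D.a + (t / D.l) * D.a' := by
  rw [Dat.a']; field_simp; ring

lemma conv_b (D : Dat) {t : ℝ} (hl : 0 < D.l) :
    D.b + t * D.d = (1 - t / D.l) * D.b + (t / D.l) * D.b' := by
  rw [Dat.b']; field_simp; ring

lemma dat_c_pos (h : Good η) (k : ℕ) (i : Fin 5) : 0 < (dat η k i).c := by
  fin_cases i
  · exact cA_pos _
  · exact cA_pos _
  · exact div_pos (by have := h.vx_ge k; linarith) (h.qq_pos k)
  · exact one_pos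
  · exact one_pos

/-- range of the abscissae of a piece -/
lemma dat_range_a (h : Good η) (k : ℕ) (i : Fin 5) {t : ℝ} (ht : t ∈ Ioo 0 (dat η k i).l) :
    xx (k + 1) < (dat η k i).a + t * (dat η k i).c ∧
    (i = 0 → (dat η k i).a + t * (dat η k i).c < xx k) ∧
    (i ≠ 0 → 3 / 4 * xx k < (dat η k i).a + t * (dat η k i).c ∧
      (dat η k i).a + t * (dat η k i).c < 3 / 2 * xx k) := by
  have hc := dat_c_pos h k i
  have hx := xx_pos k
  have hx1 := xx_succ k
  have lo : (dat η k i).a < (dat η k i).a + t * (dat η k i).c := by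
    have := mul_pos ht.1 hc; linarith
  have hi : (dat η k i).a + t * (dat η k i).c < (dat η k i).a' := by
    rw [Dat.a']
    have := mul_lt_mul_of_pos_right ht.2 hc
    linarith
  have z1 := h.lt_zz k
  have z2 := h.zz_lt k
  fin_cases i
  · rw [show (⟨0, by norm_num⟩ : Fin 5) = 0 from rfl] at *
    rw [(end0 (η := η) k).1] at hi
    have e : (dat η k 0).a = xx (k + 1) := rfl
    rw [e] at lo hi ⊢
    exact ⟨lo, fun _ => hi, fun hne => absurd rfl hne⟩
  · have hi' := hi.trans_eq (end1 (η := η) k).1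
    have e : (dat η k 1).a = xx k := rfl
    have lo' : xx k < _ := lo
    refine ⟨by linarith, fun h0 => absurd h0 (by decide), fun _ => ⟨by linarith, hi'⟩⟩
  · have hi' := hi.trans_eq (end2 h k).1
    have lo' : zz η k < _ := lo
    refine ⟨by linarith, fun h0 => absurd h0 (by decide), fun _ => ⟨by linarith, by linarith⟩⟩
  · have hi' := hi.trans_eq (end3 (η := η) k).1
    have lo' : 3 / 4 * xx k < _ := lo
    refine ⟨by linarith, fun h0 => absurd h0 (by decide), fun _ => ⟨by linarith, by linarith⟩⟩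
  · have hi' := hi.trans_eq (end4 (η := η) k).1
    have lo' : zz η k < _ := lo
    refine ⟨by linarith, fun h0 => absurd h0 (by decide), fun _ => ⟨by linarith, by linarith⟩⟩

/-- range of the heights of a piece -/
lemma dat_range_b (h : Good η) (k : ℕ) (i : Fin 5) {t : ℝ} (ht : t ∈ Ioo 0 (dat η k i).l) :
    0 ≤ (dat η k i).b + t * (dat η k i).d ∧ (dat η k i).b + t * (dat η k i).d ≤ η (k + 1) := by
  have hl := dat_l_pos h k i
  have p1 := h.pos (k + 1)
  have p2 := h.pos (k + 2)
  have p3 : η (k + 2) ≤ η (k + 1) := by have := h.dec (k + 1); linarith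
  have e : 0 ≤ (dat η k i).b ∧ (dat η k i).b ≤ η (k + 1) ∧ 0 ≤ (dat η k i).b' ∧
      (dat η k i).b' ≤ η (k + 1) := by
    fin_cases i
    · refine ⟨p2.le, p3, ?_, ?_⟩
      · exact p1.le.trans_eq (end0 (η := η) k).2.symm
      · exact (end0 (η := η) k).2.le
    · refine ⟨p1.le, le_refl _, ?_, ?_⟩
      · exact (end1 (η := η) k).2.symm.le
      · exact (end1 (η := η) k).2.le.trans p1.le
    · refine ⟨le_refl _, p1.le, ?_, ?_⟩
      · exact p1.le.trans_eq (end2 h k).2.symm
      · exact (end2 h k).2.le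
    · refine ⟨le_refl _, p1.le, ?_, ?_⟩
      · exact (end3 (η := η) k).2.symm.le
      · exact (end3 (η := η) k).2.le.trans p1.le
    · refine ⟨le_refl _, p1.le, ?_, ?_⟩
      · exact (end4 (η := η) k).2.symm.le
      · exact (end4 (η := η) k).2.le.trans p1.le
  obtain ⟨e1, e2, e3, e4⟩ := e
  rw [conv_b _ hl]
  have t1 : 0 < t / (dat η k i).l := div_pos ht.1 hl
  have t2 : t / (dat η k i).l < 1 := (div_lt_one hl).2 ht.2
  constructor
  · have := mul_nonneg (sub_nonneg.2 t2.le) e1
    have := mul_nonneg t1.le e3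
    linarith
  · have := mul_le_mul_of_nonneg_left e2 (sub_nonneg.2 t2.le)
    have := mul_le_mul_of_nonneg_left e4 t1.le
    linarith

lemma truss_pos (h : Good η) (i : Ix) (t : Fin (m + 1) → ℝ) :
    (truss m n h i).pos t
      = emb m n (sg i.2.2.1 * ((dat η i.1 i.2.1).a + t 0 * (dat η i.1 i.2.1).c))
        (sg i.2.2.2 * ((dat η i.1 i.2.1).b + t 0 * (dat η i.1 i.2.1).d))
        + tr m n (fun j => t j.succ) := by
  rw [truss, seg_pos]
  congr 2 <;> ring

lemma mem_carrier (h : Good η) (i : Ix) {x : E m n} (hx : x ∈ (truss m n h i).carrier) :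
    ∃ t ∈ Ioo 0 (dat η i.1 i.2.1).l,
      x (Sum.inl 0) = sg i.2.2.1 * ((dat η i.1 i.2.1).a + t * (dat η i.1 i.2.1).c) ∧
      x (Sum.inr 0) = sg i.2.2.2 * ((dat η i.1 i.2.1).b + t * (dat η i.1 i.2.1).d) ∧
      ∀ j : Fin (n + 1), j ≠ 0 → x (Sum.inr j) = 0 := by
  obtain ⟨t, ht, rfl⟩ := hx
  refine ⟨t 0, ht, ?_, ?_, fun j hj => ?_⟩
  · rw [truss_pos]; simp
  · rw [truss_pos]; simp
  · rw [truss_pos]; simp [hj]

lemma carrier_norm (h : Good η) (i : Ix) {x : E m n} (hx : x ∈ (truss m n h i).carrier) :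
    xx (i.1 + 1) < ‖x‖ := by
  obtain ⟨t, ht, h1, -, -⟩ := mem_carrier h i hx
  have h2 := (dat_range_a h i.1 i.2.1 ht).1
  have h3 := abs_coord_le x (Sum.inl 0)
  rw [h1, abs_mul, abs_sg, one_mul, abs_of_pos ((xx_pos _).trans h2)] at h3
  linarith

lemma carrier_infDist (h : Good η) (i : Ix) {x : E m n} (hx : x ∈ (truss m n h i).carrier) :
    Metric.infDist x (plane m n) ≤ η (i.1 + 1) := by
  obtain ⟨t, ht, -, h1, h2⟩ := mem_carrier h i hx
  have h3 := dat_range_b h i.1 i.2.1 ht
  have hy : x - x (Sum.inr 0) • ez m n ∈ plane m n := by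
    intro j
    by_cases hj : j = 0
    · subst hj; simp [ez]
    · simp [ez, hj, h2 j hj]
  refine (Metric.infDist_le_dist_of_mem hy).trans ?_
  rw [dist_eq_norm, sub_sub_cancel, norm_smul, norm_ez, mul_one, Real.norm_eq_abs, h1, abs_mul,
    abs_sg, one_mul, abs_of_nonneg h3.1]
  exact h3.2

/-- at most 20 pieces pass through a point -/
lemma carrier_card (h : Good η) (x : E m n) :
    {i : Ix | x ∈ (truss m n h i).carrier}.encard ≤ 20 := by
  have hinj : InjOn (fun i : Ix => i.2) {i : Ix | x ∈ (truss m n h i).carrier} := by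
    have key : ∀ i i' : Ix, x ∈ (truss m n h i).carrier → x ∈ (truss m n h i').carrier →
        i.2 = i'.2 → ¬ i.1 < i'.1 := by
      rintro ⟨k, j⟩ ⟨k', j'⟩ hi hi' (rfl : j = j') (hlt : k < k')
      obtain ⟨t, ht, h1, -, -⟩ := mem_carrier h _ hi
      obtain ⟨t', ht', h1', -, -⟩ := mem_carrier h _ hi'
      simp only at ht h1 ht' h1'
      rw [h1] at h1'
      have hsg : sg j.2.1 ≠ 0 := by
        intro h0; have := sg_sq j.2.1; rw [h0] at this; norm_num at this
      have heq := mul_left_cancel₀ hsg h1'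
      have r1 := dat_range_a h k j.1 ht
      have r2 := dat_range_a h k' j.1 ht'
      have hxk : xx k' ≤ xx (k + 1) := by
        unfold xx
        exact pow_le_pow_of_le_one (by norm_num) (by norm_num) hlt
      have hx1 := xx_succ k
      have hxp := xx_pos k
      by_cases hj : j.1 = 0
      · have a1 := r1.1
        have a2 := r2.2.1 hj
        rw [heq] at a1
        linarith
      · have a1 := (r1.2.2 hj).1
        have a2 := (r2.2.2 hj).2
        rw [heq] at a1
        linarith
    rintro i hi i' hi' he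
    have h1 := key i i' hi hi' he
    have h2 := key i' i hi' hi he.symm
    exact Prod.ext (le_antisymm (not_lt.1 h2) (not_lt.1 h1)) he
  rw [← hinj.encard_image]
  refine (encard_le_encard (subset_univ _)).trans ?_
  rw [encard_univ, ENat.card_eq_coe_fintype_card]
  simp [Fintype.card_prod]

lemma truss_mass_ball (h : Good η) (i : Ix) {r : ℝ} (hr : 0 < r) :
    (truss m n h i).mass (Metric.ball 0 r) ≤ ENNReal.ofReal (4 * xx i.1 * (2 * r) ^ m) := by
  refine (seg_mass_ball _ _ _ _ _ _ _ _ (dat_l_pos h _ _).le hr).trans ?_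
  refine ENNReal.ofReal_le_ofReal ?_
  have h1 := dat_w_le h i.1 i.2.1
  have h2 := dat_l_le h i.1 i.2.1
  have h3 := dat_l_pos h i.1 i.2.1
  have h4 := xx_pos i.1
  gcongr

lemma truss_mass_ball_zero (h : Good η) (i : Ix) {r : ℝ} (hr : r ≤ xx (i.1 + 1)) :
    (truss m n h i).mass (Metric.ball 0 r) = 0 := by
  rw [mass_apply _ Metric.isOpen_ball.measurableSet]
  have : (truss m n h i).pos ⁻¹' Metric.ball 0 r ∩ (truss m n h i).A = ∅ := by
    ext t
    simp only [mem_inter_iff, mem_preimage, mem_ball_zero_iff, mem_empty_iff_false, iff_false,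
      not_and]
    intro h1 h2
    have := carrier_norm h i ⟨t, h2, rfl⟩
    linarith
  rw [this]; simp

lemma tsum_xx (c : ℝ) (hc : 0 ≤ c) :
    ∑' i : Ix, ENNReal.ofReal (c * xx i.1) = ENNReal.ofReal (40 * c) := by
  rw [ENNReal.tsum_prod (f := fun k (_ : Fin 5 × Bool × Bool) => ENNReal.ofReal (c * xx k))]
  simp only [tsum_fintype, Finset.sum_const, Finset.card_univ, nsmul_eq_mul]
  rw [ENNReal.tsum_mul_left]
  have h1 : Summable fun k : ℕ => c * xx k :=
    (summable_geometric_of_lt_one (by norm_num) (by norm_num)).mul_left c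
  rw [← ENNReal.ofReal_tsum_of_nonneg (fun k => mul_nonneg hc (xx_pos k).le) h1, tsum_mul_left]
  have h2 : ∑' k, xx k = 2 := tsum_geometric_two
  rw [h2]
  have h3 : ((Fintype.card (Fin 5 × Bool × Bool) : ℕ) : ℝ≥0∞) = ENNReal.ofReal 20 := by
    simp [Fintype.card_prod]
  rw [h3, ← ENNReal.ofReal_mul (by norm_num)]
  congr 1; ring

lemma weight_ball_lt_top (h : Good η) (R : ℝ) :
    weight (truss m n h) (Metric.ball 0 R) < ⊤ := by
  have hR : Metric.ball (0 : E m n) R ⊆ Metric.ball 0 (max R 1) :=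
    Metric.ball_subset_ball (le_max_left _ _)
  have hpos : (0 : ℝ) < max R 1 := lt_max_of_lt_right one_pos
  refine (measure_mono hR).trans_lt ?_
  rw [weight, Measure.sum_apply _ Metric.isOpen_ball.measurableSet]
  refine (ENNReal.tsum_le_tsum fun i => truss_mass_ball h i hpos).trans_lt ?_
  have : ∀ i : Ix, 4 * xx i.1 * (2 * max R 1) ^ m = (4 * (2 * max R 1) ^ m) * xx i.1 :=
    fun i => by ring
  simp only [this]
  rw [tsum_xx _ (by positivity)]
  exact ENNReal.ofReal_lt_top

lemma ae_mass (h : Good η) (i : Ix) {p : E m n → Prop} (hp : MeasurableSet {x | p x})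
    (hc : ∀ x ∈ (truss m n h i).carrier, p x) : ∀ᵐ x ∂((truss m n h i).mass), p x := by
  rw [ae_iff, show {a : E m n | ¬ p a} = {x | p x}ᶜ from rfl, mass_apply _ hp.compl]
  have : (truss m n h i).pos ⁻¹' {a | ¬ p a} ∩ (truss m n h i).A = ∅ := by
    ext t
    simp only [mem_inter_iff, mem_preimage, mem_ofPred_eq, mem_empty_iff_false, iff_false, not_and]
    intro h1 h2
    exact h1 (hc _ ⟨t, h2, rfl⟩)
  change ENNReal.ofReal (truss m n h i).w * volume ((truss m n h i).pos ⁻¹' {a | ¬ p a}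
    ∩ (truss m n h i).A) = 0
  rw [this]; simp

/-- the contact integral of a piece -/
lemma piece_contact (h : Good η) (i : Ix) {r : ℝ} (hr : 0 < r) (hr1 : r ≤ 1) {C : ℝ} (hC0 : 0 ≤ C)
    (hC : xx (i.1 + 1) < r → η (i.1 + 1) ^ 2 ≤ C) :
    ∫⁻ x in Metric.ball 0 r, ENNReal.ofReal (Metric.infDist x (plane m n) ^ 2)
        ∂((truss m n h i).mass) ≤ ENNReal.ofReal ((4 * 2 ^ m * C) * xx i.1) := by
  by_cases hlt : xx (i.1 + 1) < r
  · have h1 : ∀ᵐ x ∂((truss m n h i).mass), ENNReal.ofReal (Metric.infDist x (plane m n) ^ 2)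
        ≤ ENNReal.ofReal C := by
      refine ae_mass h i ?_ ?_
      · refine measurableSet_le ?_ measurable_const
        exact ((Metric.continuous_infDist_pt _).pow 2).measurable.ennreal_ofReal
      · intro x hx
        refine ENNReal.ofReal_le_ofReal (le_trans ?_ (hC hlt))
        have := carrier_infDist h i hx
        have h0 := Metric.infDist_nonneg (x := x) (s := plane m n)
        gcongr
    calc _ ≤ ∫⁻ _ in Metric.ball 0 r, ENNReal.ofReal C ∂((truss m n h i).mass) :=
          lintegral_mono_ae (ae_restrict_of_ae h1)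
      _ = ENNReal.ofReal C * (truss m n h i).mass (Metric.ball 0 r) := by
          rw [lintegral_const, Measure.restrict_apply_univ]
      _ ≤ ENNReal.ofReal C * ENNReal.ofReal (4 * xx i.1 * (2 * r) ^ m) :=
          mul_le_mul_right (truss_mass_ball h i hr) _
      _ ≤ _ := by
          rw [← ENNReal.ofReal_mul hC0]
          refine ENNReal.ofReal_le_ofReal ?_
          have h4 := xx_pos i.1
          have h5 : (2 * r) ^ m ≤ 2 ^ m := by
            refine pow_le_pow_left₀ (by positivity) (by linarith) m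
          calc C * (4 * xx i.1 * (2 * r) ^ m) ≤ C * (4 * xx i.1 * 2 ^ m) := by gcongr
            _ = _ := by ring
  · have h0 := truss_mass_ball_zero (m := m) (n := n) h i (not_lt.1 hlt)
    rw [Measure.restrict_eq_zero.2 h0]
    simp

lemma contact (h : Good η) {r : ℝ} (hr : 0 < r) (hr1 : r ≤ 1) {C : ℝ} (hC0 : 0 ≤ C)
    (hC : ∀ k, xx (k + 1) < r → η (k + 1) ^ 2 ≤ C) :
    ∫⁻ x in Metric.ball 0 r, ENNReal.ofReal (Metric.infDist x (plane m n) ^ 2)
        ∂(weight (truss m n h)) ≤ ENNReal.ofReal (160 * 2 ^ m * C) := by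
  rw [weight, Measure.restrict_sum _ Metric.isOpen_ball.measurableSet, lintegral_sum_measure]
  refine (ENNReal.tsum_le_tsum fun i => piece_contact h i hr hr1 hC0 (hC i.1)).trans ?_
  rw [tsum_xx _ (by positivity)]
  refine ENNReal.ofReal_le_ofReal (le_of_eq ?_)
  ring

lemma weight_off_plane (h : Good η) {r : ℝ} (hr : 0 < r) :
    0 < weight (truss m n h) (Metric.ball 0 r \ plane m n) := by
  have hpl : IsClosed (plane m n) := by
    have : plane m n = ⋂ j : Fin (n + 1), {x : E m n | x (Sum.inr j) = 0} := by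
      ext x; simp [plane]
    rw [this]
    exact isClosed_iInter fun j => isClosed_eq (by fun_prop) continuous_const
  have hopen : IsOpen (Metric.ball (0 : E m n) r \ plane m n) :=
    Metric.isOpen_ball.sdiff hpl
  obtain ⟨k, hk⟩ := ((tendsto_xx.eventually (gt_mem_nhds (show (0 : ℝ) < r / 2 by positivity))).exists)
  set i : Ix := (k, 0, true, true) with hi
  rw [weight]
  refine lt_of_lt_of_le ?_ (Measure.le_iff'.1 (Measure.le_sum (fun i => (truss m n h i).mass) i) _)
  rw [mass_apply _ hopen.measurableSet]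
  refine ENNReal.mul_pos ?_ ?_
  · exact (ENNReal.ofReal_pos.2 (truss m n h i).w_pos).ne'
  · refine (IsOpen.measure_pos volume ?_ ?_).ne'
    · exact (hopen.preimage (truss m n h i).continuous_pos).inter
        (isOpen_Ioo.preimage (continuous_apply 0))
    · have hl := dat_l_pos h k 0
      refine ⟨Fin.cons ((dat η k 0).l / 2) (fun _ => 0), ?_, ?_⟩
      · have ht : (dat η k 0).l / 2 ∈ Ioo 0 (dat η k 0).l := ⟨by linarith, by linarith⟩
        have r1 := dat_range_a h k 0 ht
        have r2 := dat_range_b h k 0 ht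
        have r3 : 0 < (dat η k 0).b + (dat η k 0).l / 2 * (dat η k 0).d := by
          have : 0 < η (k + 2) := h.pos _
          have e : (dat η k 0).b = η (k + 2) := rfl
          have : 0 ≤ (dat η k 0).d := cB_nonneg (h.ss_pos (k + 1)).le
          rw [e]; positivity
        have r4 := h.eta_le k
        have r5 := r1.2.1 rfl
        have r6 := xx_pos (k + 1)
        rw [mem_preimage, truss_pos]
        have etr : tr m n (fun j => (Fin.cons ((dat η k 0).l / 2) (fun _ => 0) :
            Fin (m + 1) → ℝ) j.succ) = 0 := by simp [tr]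
        rw [etr, add_zero]
        simp only [hi, sg, if_true, one_mul, Fin.cons_zero]
        refine ⟨?_, ?_⟩
        · rw [mem_ball_zero_iff, emb]
          refine (norm_add_le _ _).trans_lt ?_
          rw [norm_smul, norm_smul, norm_ex, norm_ez, mul_one, mul_one, Real.norm_eq_abs,
            Real.norm_eq_abs, abs_of_pos (r6.trans r1.1), abs_of_pos r3]
          linarith [r2.2]
        · intro hmem
          have := hmem 0
          rw [emb_inr_zero] at this
          linarith
      · show (Fin.cons ((dat η k 0).l / 2) (fun _ => 0) : Fin (m + 1) → ℝ) 0 ∈ Ioo 0 (dat η k 0).l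
        rw [Fin.cons_zero]
        exact ⟨by linarith, by linarith⟩

/-- tilt of the pieces -/
lemma dat_d_le (h : Good η) (k : ℕ) (i : Fin 5) : |(dat η k i).d| ≤ 2 * (2 ^ k * η k) := by
  have h1 := h.ss_le k
  have h2 := h.ss_pos k
  have h3 := h.ss_pos (k + 1)
  have h4 := h.ss_anti k
  have h5 := cB_nonneg h3.le
  have h6 := cB_le h3.le
  have h7 := cB_nonneg (h.ff_pos k).le
  have h8 := cB_le (h.ff_pos k).le
  have h9 : ff η k ≤ ss η k := by
    have := h.ss_ge k; have := h.T_pos k; rw [Good.ff_eq]; linarith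
  fin_cases i
  · show |cB (ss η (k + 1))| ≤ _
    rw [abs_of_nonneg h5]; linarith
  · show |-cB (ff η k)| ≤ _
    rw [abs_neg, abs_of_nonneg h7]; linarith
  · show |vz η k / qq η k| ≤ _
    have q0 := h.qq_pos k
    have q1 := h.qq_bounds k
    have q2 := h.ss_le8 k
    have v0 := h.vz_pos k
    have v1 : vz η k ≤ ss η k := by
      have := cB_le h2.le
      rw [vz]; linarith
    rw [abs_le] at q1
    rw [abs_of_pos (div_pos v0 q0), div_le_iff₀ q0]
    nlinarith
  · show |(0 : ℝ)| ≤ _
    rw [abs_zero]; linarith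
  · show |(0 : ℝ)| ≤ _
    rw [abs_zero]; linarith

lemma truss_tilt (h : Good η) (i : Ix) (j : Fin (m + 1)) (l : Fin (n + 1)) :
    |(truss m n h i).v j (Sum.inr l)| ≤ 2 * (2 ^ i.1 * η i.1) := by
  have h0 : 0 ≤ 2 * (2 ^ i.1 * η i.1) := by have := h.pos i.1; positivity
  refine Fin.cases ?_ (fun j => ?_) j
  · show |emb m n (sg i.2.2.1 * (dat η i.1 i.2.1).c) (sg i.2.2.2 * (dat η i.1 i.2.1).d)
      (Sum.inr l)| ≤ _
    by_cases hl : l = 0
    · subst hl
      rw [emb_inr_zero, abs_mul, abs_sg, one_mul]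
      exact dat_d_le h i.1 i.2.1
    · rw [emb_inr_ne _ _ hl, abs_zero]; exact h0
  · show |et m n j (Sum.inr l)| ≤ _
    rw [et]; simpa using h0

end Pool.Agent.SP74

end
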