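import Mathlib

/-!
# The sequences of the truss
-/

set_option autoImplicit false

noncomputable section

namespace Pool.Agent.SP74

/-- cosine of the angle with slope `s` -/
def cA (s : ℝ) : ℝ := 1 / Real.sqrt (1 + s ^ 2)

/-- sine of the angle with slope `s` -/
def cB (s : ℝ) : ℝ := s / Real.sqrt (1 + s ^ 2)

lemma sqrt_pos' (s : ℝ) : 0 < Real.sqrt (1 + s ^ 2) := Real.sqrt_pos.2 (by positivity)

lemma cA_pos (s : ℝ) : 0 < cA s := div_pos one_pos (sqrt_pos' s)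

lemma cAB (s : ℝ) : cA s ^ 2 + cB s ^ 2 = 1 := by
  have h := Real.sq_sqrt (show (0 : ℝ) ≤ 1 + s ^ 2 by positivity)
  rw [cA, cB, div_pow, div_pow, h]
  field_simp

lemma cB_eq (s : ℝ) : cB s = s * cA s := by rw [cA, cB]; ring

lemma cA_le_one (s : ℝ) : cA s ≤ 1 := by
  nlinarith [cAB s, cA_pos s, sq_nonneg (cB s)]

lemma one_sub_cA (s : ℝ) : 1 - cA s ≤ s ^ 2 / 2 := by
  have h1 : Real.sqrt (1 + s ^ 2) ≤ 1 + s ^ 2 / 2 := by
    rw [Real.sqrt_le_left (by positivity)]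
    nlinarith [sq_nonneg (s ^ 2)]
  have h2 : 1 / (1 + s ^ 2 / 2) ≤ cA s := one_div_le_one_div_of_le (sqrt_pos' s) h1
  have h3 : 1 - s ^ 2 / 2 ≤ 1 / (1 + s ^ 2 / 2) := by
    rw [le_div_iff₀ (by positivity)]
    nlinarith [sq_nonneg (s ^ 2)]
  linarith

lemma cB_nonneg {s : ℝ} (h : 0 ≤ s) : 0 ≤ cB s := by
  rw [cB_eq]; exact mul_nonneg h (cA_pos s).le

lemma cB_le {s : ℝ} (h : 0 ≤ s) : cB s ≤ s := by
  rw [cB_eq]; nlinarith [cA_le_one s]

lemma le_cB {s : ℝ} (h : 0 ≤ s) (h2 : s ≤ 1 / 8) : 9 / 10 * s ≤ cB s := by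
  rw [cB_eq]
  have := one_sub_cA s
  nlinarith [mul_nonneg h (show (0 : ℝ) ≤ 1 / 8 - s by linarith)]

/-- conditions on the heights -/
structure Good (η : ℕ → ℝ) : Prop where
  pos : ∀ k, 0 < η k
  dec : ∀ k, η (k + 1) ≤ η k / 16
  small : ∀ k, 2 ^ k * η k ≤ 1 / 8

/-- abscissae -/
def xx (k : ℕ) : ℝ := (1 / 2) ^ k

lemma xx_pos (k : ℕ) : 0 < xx k := by unfold xx; positivity

lemma xx_succ (k : ℕ) : xx (k + 1) = xx k / 2 := by unfold xx; rw [pow_succ]; ring

lemma two_pow_xx (k : ℕ) : 2 ^ k * xx k = 1 := by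
  unfold xx; rw [← mul_pow]; norm_num

/-- slope of the chord with number `k` -/
def ss (η : ℕ → ℝ) (k : ℕ) : ℝ := 2 ^ k * (η k - η (k + 1))

/-- slope of the strand with number `k` -/
def ff (η : ℕ → ℝ) (k : ℕ) : ℝ := 2 ^ (k + 1) * η (k + 1)

/-- horizontal component of the force of the strut with number `k` -/
def vx (η : ℕ → ℝ) (k : ℕ) : ℝ := cA (ss η k) - cA (ss η (k + 1)) + cA (ff η k)

/-- vertical component of the force of the strut with number `k` -/
def vz (η : ℕ → ℝ) (k : ℕ) : ℝ := cB (ss η k) - cB (ss η (k + 1)) - cB (ff η k)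

/-- norm of the force of the strut -/
def qq (η : ℕ → ℝ) (k : ℕ) : ℝ := Real.sqrt (vx η k ^ 2 + vz η k ^ 2)

/-- ratio of the length of the strut and its force -/
def lam (η : ℕ → ℝ) (k : ℕ) : ℝ := η (k + 1) / vz η k

/-- foot of the strut -/
def zz (η : ℕ → ℝ) (k : ℕ) : ℝ := xx k - lam η k * vx η k

variable {η : ℕ → ℝ}

namespace Good

lemma T_pos (h : Good η) (k : ℕ) : 0 < 2 ^ k * η (k + 1) := by
  have := h.pos (k + 1); positivity

lemma T_le (h : Good η) (k : ℕ) : 16 * (2 ^ k * η (k + 1)) ≤ 2 ^ k * η k := by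
  have h1 := h.dec k
  have h2 : (0 : ℝ) < 2 ^ k := by positivity
  nlinarith

lemma ss_ge (h : Good η) (k : ℕ) : 15 * (2 ^ k * η (k + 1)) ≤ ss η k := by
  have := h.T_le k
  rw [ss]; linarith

lemma ss_le (h : Good η) (k : ℕ) : ss η k ≤ 2 ^ k * η k := by
  have := h.T_pos k
  rw [ss]; linarith

lemma ss_pos (h : Good η) (k : ℕ) : 0 < ss η k := by
  have := h.T_pos k; have := h.ss_ge k; linarith

lemma ss_le8 (h : Good η) (k : ℕ) : ss η k ≤ 1 / 8 := (h.ss_le k).trans (h.small k)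

lemma ss_succ_le (h : Good η) (k : ℕ) : ss η (k + 1) ≤ 2 * (2 ^ k * η (k + 1)) := by
  refine (h.ss_le (k + 1)).trans (le_of_eq ?_)
  rw [pow_succ]; ring

lemma ff_eq (k : ℕ) : ff η k = 2 * (2 ^ k * η (k + 1)) := by rw [ff, pow_succ]; ring

lemma ff_pos (h : Good η) (k : ℕ) : 0 < ff η k := by
  rw [ff_eq]; have := h.T_pos k; linarith

lemma ff_le8 (h : Good η) (k : ℕ) : ff η k ≤ 1 / 8 := by
  rw [ff_eq]; have := h.T_le k; have := h.small k; have := h.T_pos k; linarith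

lemma vz_ge (h : Good η) (k : ℕ) : 9 * (2 ^ k * η (k + 1)) ≤ vz η k := by
  have h1 := le_cB (h.ss_pos k).le (h.ss_le8 k)
  have h2 := cB_le (h.ss_pos (k + 1)).le
  have h3 := cB_le (h.ff_pos k).le
  have h4 := h.ss_ge k
  have h5 := h.ss_succ_le k
  have h6 := ff_eq (η := η) k
  have h7 := h.T_pos k
  rw [vz]; linarith

lemma vz_pos (h : Good η) (k : ℕ) : 0 < vz η k := by
  have := h.vz_ge k; have := h.T_pos k; linarith

lemma a_ge {s : ℝ} (h0 : 0 ≤ s) (h1 : s ≤ 1 / 8) : 99 / 100 ≤ cA s := by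
  have := one_sub_cA s
  nlinarith

lemma vx_ge (h : Good η) (k : ℕ) : 98 / 100 ≤ vx η k := by
  have h1 := a_ge (h.ss_pos k).le (h.ss_le8 k)
  have h2 := cA_le_one (ss η (k + 1))
  have h3 := a_ge (h.ff_pos k).le (h.ff_le8 k)
  rw [vx]; linarith

lemma vx_le (h : Good η) (k : ℕ) : vx η k ≤ 101 / 100 := by
  have h1 := a_ge (h.ss_pos (k + 1)).le (h.ss_le8 (k + 1))
  have h2 := cA_le_one (ss η k)
  have h3 := cA_le_one (ff η k)
  rw [vx]; linarith

lemma qq_sq (k : ℕ) : qq η k ^ 2 = vx η k ^ 2 + vz η k ^ 2 :=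
  Real.sq_sqrt (by positivity)

lemma qq_pos (h : Good η) (k : ℕ) : 0 < qq η k := by
  have := h.vx_ge k
  exact Real.sqrt_pos.2 (by nlinarith [sq_nonneg (vz η k)])

lemma ss_anti (h : Good η) (k : ℕ) : ss η (k + 1) ≤ ss η k := by
  have := h.ss_succ_le k; have := h.ss_ge k; have := h.T_pos k; linarith

lemma qq_bounds (h : Good η) (k : ℕ) : |qq η k - 1| ≤ 4 * ss η k := by
  have ha1 := one_sub_cA (ss η k)
  have ha2 := cA_le_one (ss η k)
  have ha3 := one_sub_cA (ss η (k + 1))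
  have ha4 := cA_le_one (ss η (k + 1))
  have hs0 := (h.ss_pos k).le
  have hs8 := h.ss_le8 k
  have hs1 := (h.ss_pos (k + 1)).le
  have hs2 := h.ss_anti k
  have hb1 := cB_nonneg hs0
  have hb2 := cB_le hs0
  have hb3 := cB_nonneg hs1
  have hb4 := cB_le hs1
  set α := cA (ss η k) - cA (ss η (k + 1)) with hα
  set β := cB (ss η k) - cB (ss η (k + 1)) with hβ
  have h1 : |α| ≤ ss η k := by
    rw [abs_le]; constructor <;> nlinarith
  have h2 : |β| ≤ ss η k := by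
    rw [abs_le]; constructor <;> linarith
  set c := cA (ff η k) with hc
  set g := cB (ff η k) with hg
  have hcg : c ^ 2 + g ^ 2 = 1 := cAB _
  have hc1 : |c| ≤ 1 := by rw [abs_le]; constructor <;> nlinarith [sq_nonneg g]
  have hg1 : |g| ≤ 1 := by rw [abs_le]; constructor <;> nlinarith [sq_nonneg c]
  have hq : qq η k ^ 2 = 1 + 2 * (α * c - β * g) + α ^ 2 + β ^ 2 := by
    rw [qq_sq, vx, vz, ← hα, ← hβ, ← hc, ← hg]
    nlinarith
  have h3 : |α * c| ≤ ss η k := by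
    rw [abs_mul]
    calc |α| * |c| ≤ ss η k * 1 := by gcongr
      _ = _ := mul_one _
  have h4 : |β * g| ≤ ss η k := by
    rw [abs_mul]
    calc |β| * |g| ≤ ss η k * 1 := by gcongr
      _ = _ := mul_one _
  rw [abs_le] at h1 h2 h3 h4
  have hqp := (h.qq_pos k).le
  rw [abs_le]
  constructor
  · have : (1 - 4 * ss η k) ^ 2 ≤ qq η k ^ 2 := by
      rw [hq]; nlinarith [sq_nonneg α, sq_nonneg β]
    have := abs_le_of_sq_le_sq' this hqp
    linarith [this.2]
  · have : qq η k ^ 2 ≤ (1 + 4 * ss η k) ^ 2 := by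
      rw [hq]
      have : α ^ 2 ≤ ss η k ^ 2 := by nlinarith
      have : β ^ 2 ≤ ss η k ^ 2 := by nlinarith
      nlinarith
    have := abs_le_of_sq_le_sq' this (by linarith)
    linarith [this.2]

lemma lam_pos (h : Good η) (k : ℕ) : 0 < lam η k := div_pos (h.pos _) (h.vz_pos k)

lemma lam_le (h : Good η) (k : ℕ) : 9 * lam η k ≤ xx k := by
  have h1 := h.vz_ge k
  have h2 := two_pow_xx k
  have h3 := xx_pos k
  have h4 := h.pos (k + 1)
  have : lam η k * vz η k = η (k + 1) := div_mul_cancel₀ _ (h.vz_pos k).ne'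
  have h5 : lam η k * (9 * (2 ^ k * η (k + 1))) ≤ η (k + 1) := by
    rw [← this]
    nth_rewrite 1 [this]
    exact mul_le_mul_of_nonneg_left h1 (h.lam_pos k).le
  have h6 : lam η k * (9 * 2 ^ k) ≤ 1 := by
    by_contra hcon
    push Not at hcon
    nlinarith
  have : 9 * lam η k * (2 ^ k * xx k) ≤ xx k := by nlinarith
  rwa [h2, mul_one] at this

lemma lam_vx (h : Good η) (k : ℕ) : lam η k * vx η k ≤ xx k / 8 := by
  have h1 := h.lam_le k
  have h2 := h.vx_le k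
  have h3 := h.vx_ge k
  have h4 := h.lam_pos k
  nlinarith [xx_pos k]

lemma lam_vz (h : Good η) (k : ℕ) : lam η k * vz η k = η (k + 1) :=
  div_mul_cancel₀ _ (h.vz_pos k).ne'

lemma zz_lt (h : Good η) (k : ℕ) : zz η k < xx k := by
  have h4 := h.lam_pos k
  have h3 := h.vx_ge k
  rw [zz]
  have : 0 < lam η k * vx η k := mul_pos h4 (by linarith)
  linarith

lemma lt_zz (h : Good η) (k : ℕ) : 3 / 4 * xx k < zz η k := by
  have := h.lam_vx k
  have := xx_pos k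
  rw [zz]; linarith

end Good

end Pool.Agent.SP74

end
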