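import Pool.Agent.SP74.FV
import Pool.Agent.SP74.Seq

/-!
# The truss: pieces and stationarity
-/

set_option autoImplicit false

noncomputable section

open MeasureTheory Set Filter Topology
open scoped ENNReal NNReal RealInnerProductSpace

namespace Pool.Agent.SP74

/-- base point, direction, length and multiplicity of a segment -/
structure Dat where
  w : ℝ
  a : ℝ
  b : ℝ
  c : ℝ
  d : ℝ
  l : ℝ

/-- the five segments of the group with number `k` in the first quadrant: chord, strand, strut and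
the two segments of the axis -/
def dat (η : ℕ → ℝ) (k : ℕ) : Fin 5 → Dat
  | 0 => ⟨2, xx (k + 1), η (k + 2), cA (ss η (k + 1)), cB (ss η (k + 1)),
      xx (k + 1) / cA (ss η (k + 1))⟩
  | 1 => ⟨2, xx k, η (k + 1), cA (ff η k), -cB (ff η k), xx (k + 1) / cA (ff η k)⟩
  | 2 => ⟨2 * qq η k, zz η k, 0, vx η k / qq η k, vz η k / qq η k, lam η k * qq η k⟩
  | 3 => ⟨3 + 2 * (1 - cA (ss η (k + 1))), 3 / 4 * xx k, 0, 1, 0, zz η k - 3 / 4 * xx k⟩
  | 4 => ⟨1 + 2 * (1 - cA (ss η k)) + 2 * (1 - cA (ff η k)), zz η k, 0, 1, 0,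
      3 / 2 * xx k - zz η k⟩

variable {η : ℕ → ℝ}

lemma dat_unit (h : Good η) (k : ℕ) (i : Fin 5) :
    (dat η k i).c ^ 2 + (dat η k i).d ^ 2 = 1 := by
  fin_cases i
  · exact cAB _
  · show cA _ ^ 2 + (-cB _) ^ 2 = 1
    rw [neg_sq]; exact cAB _
  · show (vx η k / qq η k) ^ 2 + (vz η k / qq η k) ^ 2 = 1
    have h1 := h.qq_pos k
    have h2 := Good.qq_sq (η := η) k
    rw [div_pow, div_pow, ← add_div, ← h2]
    exact div_self (pow_ne_zero _ h1.ne')
  · show (1 : ℝ) ^ 2 + 0 ^ 2 = 1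
    norm_num
  · show (1 : ℝ) ^ 2 + 0 ^ 2 = 1
    norm_num

lemma dat_w_ge (h : Good η) (k : ℕ) (i : Fin 5) : 1 ≤ (dat η k i).w := by
  have h1 := cA_le_one (ss η k)
  have h2 := cA_le_one (ss η (k + 1))
  have h3 := cA_le_one (ff η k)
  have h4 := h.qq_bounds k
  have h5 := h.ss_le8 k
  rw [abs_le] at h4
  fin_cases i
  · show (1 : ℝ) ≤ 2
    norm_num
  · show (1 : ℝ) ≤ 2
    norm_num
  · show (1 : ℝ) ≤ 2 * qq η k
    linarith
  · show (1 : ℝ) ≤ 3 + 2 * (1 - cA (ss η (k + 1)))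
    linarith
  · show (1 : ℝ) ≤ 1 + 2 * (1 - cA (ss η k)) + 2 * (1 - cA (ff η k))
    linarith

lemma dat_w_le (h : Good η) (k : ℕ) (i : Fin 5) : (dat η k i).w ≤ 4 := by
  have h1 := Good.a_ge (h.ss_pos k).le (h.ss_le8 k)
  have h2 := Good.a_ge (h.ss_pos (k + 1)).le (h.ss_le8 (k + 1))
  have h3 := Good.a_ge (h.ff_pos k).le (h.ff_le8 k)
  have h4 := h.qq_bounds k
  have h5 := h.ss_le8 k
  rw [abs_le] at h4
  fin_cases i
  · show (2 : ℝ) ≤ 4
    norm_num
  · show (2 : ℝ) ≤ 4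
    norm_num
  · show 2 * qq η k ≤ 4
    linarith
  · show 3 + 2 * (1 - cA (ss η (k + 1))) ≤ 4
    linarith
  · show 1 + 2 * (1 - cA (ss η k)) + 2 * (1 - cA (ff η k)) ≤ 4
    linarith

/-- the integers near the multiplicities -/
def near (i : Fin 5) : ℕ := ![2, 2, 2, 3, 1] i

lemma near_pos (i : Fin 5) : 0 < near i := by fin_cases i <;> simp [near]

lemma dat_near (h : Good η) (k : ℕ) (i : Fin 5) :
    |(dat η k i).w - near i| ≤ 8 * (2 ^ k * η k) := by
  have h1 := one_sub_cA (ss η k)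
  have h1' := cA_le_one (ss η k)
  have h2 := one_sub_cA (ss η (k + 1))
  have h2' := cA_le_one (ss η (k + 1))
  have h3 := one_sub_cA (ff η k)
  have h3' := cA_le_one (ff η k)
  have h4 := h.qq_bounds k
  have h5 := h.ss_le8 k
  have h6 := h.ss_pos k
  have h7 := h.ss_le k
  have h8 := h.ss_anti k
  have h9 := h.ss_pos (k + 1)
  have h10 := h.ff_pos k
  have h11 := h.ff_le8 k
  have h12 : ff η k ≤ ss η k := by
    have := h.ss_ge k; have := h.T_pos k; rw [Good.ff_eq]; linarith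
  have h13 : (0 : ℝ) < 2 ^ k * η k := by linarith
  rw [abs_le] at h4
  rw [abs_le]
  fin_cases i
  · show -(8 * (2 ^ k * η k)) ≤ 2 - ((2 : ℕ) : ℝ) ∧ 2 - ((2 : ℕ) : ℝ) ≤ 8 * (2 ^ k * η k)
    push_cast; constructor <;> linarith
  · show -(8 * (2 ^ k * η k)) ≤ 2 - ((2 : ℕ) : ℝ) ∧ 2 - ((2 : ℕ) : ℝ) ≤ 8 * (2 ^ k * η k)
    push_cast; constructor <;> linarith
  · show -(8 * (2 ^ k * η k)) ≤ 2 * qq η k - ((2 : ℕ) : ℝ) ∧
      2 * qq η k - ((2 : ℕ) : ℝ) ≤ 8 * (2 ^ k * η k)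
    push_cast; constructor <;> linarith
  · show -(8 * (2 ^ k * η k)) ≤ 3 + 2 * (1 - cA (ss η (k + 1))) - ((3 : ℕ) : ℝ) ∧
      3 + 2 * (1 - cA (ss η (k + 1))) - ((3 : ℕ) : ℝ) ≤ 8 * (2 ^ k * η k)
    push_cast; constructor <;> nlinarith
  · show -(8 * (2 ^ k * η k)) ≤ 1 + 2 * (1 - cA (ss η k)) + 2 * (1 - cA (ff η k)) - ((1 : ℕ) : ℝ)
      ∧ 1 + 2 * (1 - cA (ss η k)) + 2 * (1 - cA (ff η k)) - ((1 : ℕ) : ℝ) ≤ 8 * (2 ^ k * η k)
    push_cast; constructor <;> nlinarith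

lemma dat_l_pos (h : Good η) (k : ℕ) (i : Fin 5) : 0 < (dat η k i).l := by
  have hx := xx_pos k
  have hx1 := xx_pos (k + 1)
  fin_cases i
  · exact div_pos hx1 (cA_pos _)
  · exact div_pos hx1 (cA_pos _)
  · exact mul_pos (h.lam_pos k) (h.qq_pos k)
  · show 0 < zz η k - 3 / 4 * xx k
    have := h.lt_zz k; linarith
  · show 0 < 3 / 2 * xx k - zz η k
    have := h.zz_lt k; linarith

lemma dat_l_le (h : Good η) (k : ℕ) (i : Fin 5) : (dat η k i).l ≤ xx k := by
  have hx := xx_pos k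
  have hx1 := xx_succ k
  have h1 := Good.a_ge (h.ss_pos (k + 1)).le (h.ss_le8 (k + 1))
  have h2 := Good.a_ge (h.ff_pos k).le (h.ff_le8 k)
  fin_cases i
  · show xx (k + 1) / cA (ss η (k + 1)) ≤ xx k
    rw [div_le_iff₀ (cA_pos _), hx1]; nlinarith
  · show xx (k + 1) / cA (ff η k) ≤ xx k
    rw [div_le_iff₀ (cA_pos _), hx1]; nlinarith
  · show lam η k * qq η k ≤ xx k
    have h3 := h.lam_le k
    have h4 := h.qq_bounds k
    have h5 := h.ss_le8 k
    have h6 := h.lam_pos k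
    rw [abs_le] at h4
    nlinarith
  · show zz η k - 3 / 4 * xx k ≤ xx k
    have := h.zz_lt k; linarith
  · show 3 / 2 * xx k - zz η k ≤ xx k
    have := h.lt_zz k; linarith

/-- end point of a segment, first coordinate -/
def Dat.a' (D : Dat) : ℝ := D.a + D.l * D.c

/-- end point of a segment, second coordinate -/
def Dat.b' (D : Dat) : ℝ := D.b + D.l * D.d

lemma end0 (k : ℕ) : (dat η k 0).a' = xx k ∧ (dat η k 0).b' = η (k + 1) := by
  have hc := (cA_pos (ss η (k + 1))).ne'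
  constructor
  · show xx (k + 1) + xx (k + 1) / cA (ss η (k + 1)) * cA (ss η (k + 1)) = xx k
    rw [div_mul_cancel₀ _ hc, xx_succ]; ring
  · show η (k + 2) + xx (k + 1) / cA (ss η (k + 1)) * cB (ss η (k + 1)) = η (k + 1)
    rw [cB_eq, mul_comm (ss η (k + 1)), ← mul_assoc, div_mul_cancel₀ _ hc, ss]
    have := two_pow_xx (k + 1)
    linear_combination (η (k + 1) - η (k + 1 + 1)) * this

lemma end1 (k : ℕ) : (dat η k 1).a' = 3 / 2 * xx k ∧ (dat η k 1).b' = 0 := by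
  have hc := (cA_pos (ff η k)).ne'
  constructor
  · show xx k + xx (k + 1) / cA (ff η k) * cA (ff η k) = 3 / 2 * xx k
    rw [div_mul_cancel₀ _ hc, xx_succ]; ring
  · show η (k + 1) + xx (k + 1) / cA (ff η k) * (-cB (ff η k)) = 0
    rw [cB_eq, mul_comm (ff η k), mul_neg, ← mul_assoc, div_mul_cancel₀ _ hc, ff]
    have := two_pow_xx (k + 1)
    linear_combination (-η (k + 1)) * this

lemma end2 (h : Good η) (k : ℕ) : (dat η k 2).a' = xx k ∧ (dat η k 2).b' = η (k + 1) := by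
  have hq := (h.qq_pos k).ne'
  constructor
  · show zz η k + lam η k * qq η k * (vx η k / qq η k) = xx k
    rw [zz]; field_simp; ring
  · show 0 + lam η k * qq η k * (vz η k / qq η k) = η (k + 1)
    rw [← h.lam_vz k]; field_simp; ring

lemma end3 (k : ℕ) : (dat η k 3).a' = zz η k ∧ (dat η k 3).b' = 0 := by
  constructor
  · show 3 / 4 * xx k + (zz η k - 3 / 4 * xx k) * 1 = zz η k
    ring
  · show 0 + (zz η k - 3 / 4 * xx k) * 0 = (0 : ℝ)
    ring

lemma end4 (k : ℕ) : (dat η k 4).a' = 3 / 2 * xx k ∧ (dat η k 4).b' = 0 := by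
  constructor
  · show zz η k + (3 / 2 * xx k - zz η k) * 1 = 3 / 2 * xx k
    ring
  · show 0 + (3 / 2 * xx k - zz η k) * 0 = (0 : ℝ)
    ring

/-- sign -/
def sg (r : Bool) : ℝ := if r then 1 else -1

lemma sg_sq (r : Bool) : sg r ^ 2 = 1 := by cases r <;> simp [sg]

lemma abs_sg (r : Bool) : |sg r| = 1 := by cases r <;> simp [sg]

/-- index of the pieces: number of the group, type, and two signs -/
abbrev Ix : Type := ℕ × (Fin 5 × Bool × Bool)

/-- the truss -/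
def truss (m n : ℕ) (h : Good η) (i : Ix) : Flat (m + 1) (E m n) :=
  seg m n (dat η i.1 i.2.1).w (sg i.2.2.1 * (dat η i.1 i.2.1).a) (sg i.2.2.2 * (dat η i.1 i.2.1).b)
    (sg i.2.2.1 * (dat η i.1 i.2.1).c) (sg i.2.2.2 * (dat η i.1 i.2.1).d) (dat η i.1 i.2.1).l
    (one_pos.trans_le (dat_w_ge h i.1 i.2.1)) (by
      rw [mul_pow, mul_pow, sg_sq, sg_sq, one_mul, one_mul]
      exact dat_unit h i.1 i.2.1)

variable {m n : ℕ} {X : E m n → E m n}

/-- symmetrised horizontal component -/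
def Hx (X : E m n → E m n) (a b : ℝ) : ℝ :=
  ∑ r : Bool, ∑ s : Bool, sg r * Phi X (ex m n) (sg r * a) (sg s * b)

/-- symmetrised vertical component -/
def Hz (X : E m n → E m n) (a b : ℝ) : ℝ :=
  ∑ r : Bool, ∑ s : Bool, sg s * Phi X (ez m n) (sg r * a) (sg s * b)

lemma truss_fv (h : Good η) (hX : ContDiff ℝ 1 X) (hc : HasCompactSupport X) (i : Ix) :
    (truss m n h i).fv X = (dat η i.1 i.2.1).w *
      ((dat η i.1 i.2.1).c * (sg i.2.2.1 * Phi X (ex m n) (sg i.2.2.1 * (dat η i.1 i.2.1).a')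
            (sg i.2.2.2 * (dat η i.1 i.2.1).b')
          - sg i.2.2.1 * Phi X (ex m n) (sg i.2.2.1 * (dat η i.1 i.2.1).a)
            (sg i.2.2.2 * (dat η i.1 i.2.1).b))
        + (dat η i.1 i.2.1).d * (sg i.2.2.2 * Phi X (ez m n) (sg i.2.2.1 * (dat η i.1 i.2.1).a')
            (sg i.2.2.2 * (dat η i.1 i.2.1).b')
          - sg i.2.2.2 * Phi X (ez m n) (sg i.2.2.1 * (dat η i.1 i.2.1).a)
            (sg i.2.2.2 * (dat η i.1 i.2.1).b))) := by
  rw [truss, seg_fv hX hc _ _ _ _ _ _ _ _ (dat_l_pos h _ _).le,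
    Phi_lin hX.continuous hc, Phi_lin hX.continuous hc]
  have e1 : sg i.2.2.1 * (dat η i.1 i.2.1).a + (dat η i.1 i.2.1).l *
      (sg i.2.2.1 * (dat η i.1 i.2.1).c) = sg i.2.2.1 * (dat η i.1 i.2.1).a' := by
    rw [Dat.a']; ring
  have e2 : sg i.2.2.2 * (dat η i.1 i.2.1).b + (dat η i.1 i.2.1).l *
      (sg i.2.2.2 * (dat η i.1 i.2.1).d) = sg i.2.2.2 * (dat η i.1 i.2.1).b' := by
    rw [Dat.b']; ring
  rw [e1, e2]
  ring

lemma sum_signs (h : Good η) (hX : ContDiff ℝ 1 X) (hc : HasCompactSupport X) (k : ℕ)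
    (i : Fin 5) :
    ∑ r : Bool, ∑ s : Bool, (truss m n h (k, i, r, s)).fv X = (dat η k i).w *
      ((dat η k i).c * (Hx X (dat η k i).a' (dat η k i).b' - Hx X (dat η k i).a (dat η k i).b)
        + (dat η k i).d * (Hz X (dat η k i).a' (dat η k i).b'
          - Hz X (dat η k i).a (dat η k i).b)) := by
  simp only [truss_fv h hX hc, Hx, Hz, Fintype.sum_bool]
  ring

lemma Hz_axis (a : ℝ) : Hz X a 0 = 0 := by
  simp [Hz, sg]

lemma Hx_axis (b : ℝ) : Hx X 0 b = 0 := by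
  simp only [Hx, sg, Fintype.sum_bool]
  simp
  ring

/-- the telescoping quantity -/
def TT (η : ℕ → ℝ) (X : E m n → E m n) (k : ℕ) : ℝ :=
  2 * (cA (ss η k) * Hx X (xx k) (η (k + 1)) + cB (ss η k) * Hz X (xx k) (η (k + 1)))
    + (3 + 2 * (1 - cA (ss η k))) * Hx X (3 / 2 * xx k) 0

lemma group_sum (h : Good η) (hX : ContDiff ℝ 1 X) (hc : HasCompactSupport X) (k : ℕ) :
    ∑ j : Fin 5 × Bool × Bool, (truss m n h (k, j)).fv X = TT η X k - TT η X (k + 1) := by
  rw [Fintype.sum_prod_type]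
  simp only [Fintype.sum_prod_type]
  simp only [sum_signs h hX hc]
  rw [Fin.sum_univ_five, (end0 (η := η) k).1, (end0 (η := η) k).2, (end1 (η := η) k).1,
    (end1 (η := η) k).2, (end2 h k).1, (end2 h k).2, (end3 (η := η) k).1, (end3 (η := η) k).2,
    (end4 (η := η) k).1, (end4 (η := η) k).2]
  simp only [dat]
  have hq := (h.qq_pos k).ne'
  have e1 : 2 * qq η k * (vx η k / qq η k * (Hx X (xx k) (η (k + 1)) - Hx X (zz η k) 0)
      + vz η k / qq η k * (Hz X (xx k) (η (k + 1)) - Hz X (zz η k) 0))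
      = 2 * (vx η k * (Hx X (xx k) (η (k + 1)) - Hx X (zz η k) 0)
      + vz η k * (Hz X (xx k) (η (k + 1)) - Hz X (zz η k) 0)) := by
    field_simp
  have e2 : 3 / 4 * xx k = 3 / 2 * xx (k + 1) := by rw [xx_succ]; ring
  rw [e1, e2]
  simp only [Hz_axis, TT, vx, vz]
  ring

lemma TT_zero (h1 : tsupport X ⊆ Metric.ball 0 1) : TT η X 0 = 0 := by
  have e0 : xx 0 = 1 := by simp [xx]
  have z : ∀ (e : E m n) (r : Bool) (a b : ℝ), 1 ≤ |a| → Phi X e (sg r * a) b = 0 := by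
    intro e r a b ha
    refine Phi_zero_of_far h1 e ?_
    rw [abs_mul, abs_sg, one_mul]; exact ha
  simp only [TT, e0, Hx, Hz]
  have a1 : (1 : ℝ) ≤ |(1 : ℝ)| := by simp
  have a2 : (1 : ℝ) ≤ |(3 / 2 * 1 : ℝ)| := by rw [abs_of_pos (by norm_num)]; norm_num
  simp only [z _ _ _ _ a1, z _ _ _ _ a2]
  simp

lemma H_bound (hX : ContDiff ℝ 1 X) (hc : HasCompactSupport X) :
    ∃ K : ℝ, 0 ≤ K ∧ ∀ a b : ℝ, |Hx X a b| ≤ K * (|a| + |b|) ∧ |Hz X a b| ≤ K * (|a| + |b|) := by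
  obtain ⟨K, hK0, hK⟩ := Phi_lip hX hc
  refine ⟨4 * K, by positivity, fun a b => ?_⟩
  have k1 : ∀ (e : E m n), ‖e‖ ≤ 1 → ∀ r s : Bool,
      |Phi X e (sg r * a) (sg s * b) - Phi X e 0 0| ≤ K * (|a| + |b|) := by
    intro e he r s
    have := hK e he (sg r * a) (sg s * b) 0 0
    simpa [abs_mul, abs_sg] using this
  have hx : ‖ex m n‖ ≤ 1 := norm_ex.le
  have hz : ‖ez m n‖ ≤ 1 := norm_ez.le
  constructor
  · have e : Hx X a b = ∑ r : Bool, ∑ s : Bool,
        sg r * (Phi X (ex m n) (sg r * a) (sg s * b) - Phi X (ex m n) 0 0) := by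
      simp only [Hx, sg, Fintype.sum_bool]; simp; ring
    rw [e]
    have q : ∀ r s : Bool, |sg r * (Phi X (ex m n) (sg r * a) (sg s * b) - Phi X (ex m n) 0 0)|
        ≤ K * (|a| + |b|) := by
      intro r s
      rw [abs_mul, abs_sg, one_mul]; exact k1 _ hx r s
    refine (Finset.abs_sum_le_sum_abs _ _).trans ?_
    refine (Finset.sum_le_sum fun r _ => (Finset.abs_sum_le_sum_abs _ _).trans
      (Finset.sum_le_sum fun s _ => q r s)).trans ?_
    simp only [Fintype.sum_bool]; linarith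
  · have e : Hz X a b = ∑ r : Bool, ∑ s : Bool,
        sg s * (Phi X (ez m n) (sg r * a) (sg s * b) - Phi X (ez m n) 0 0) := by
      simp only [Hz, sg, Fintype.sum_bool]; simp; ring
    rw [e]
    have q : ∀ r s : Bool, |sg s * (Phi X (ez m n) (sg r * a) (sg s * b) - Phi X (ez m n) 0 0)|
        ≤ K * (|a| + |b|) := by
      intro r s
      rw [abs_mul, abs_sg, one_mul]; exact k1 _ hz r s
    refine (Finset.abs_sum_le_sum_abs _ _).trans ?_
    refine (Finset.sum_le_sum fun r _ => (Finset.abs_sum_le_sum_abs _ _).trans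
      (Finset.sum_le_sum fun s _ => q r s)).trans ?_
    simp only [Fintype.sum_bool]; linarith

lemma tendsto_xx : Tendsto xx atTop (𝓝 0) :=
  tendsto_pow_atTop_nhds_zero_of_lt_one (by norm_num) (by norm_num)

lemma Good.eta_le (h : Good η) (k : ℕ) : η (k + 1) ≤ xx k := by
  have h1 := h.T_le k
  have h2 := h.small k
  have h3 := two_pow_xx k
  have h4 : (0 : ℝ) < 2 ^ k := by positivity
  by_contra hcon
  push Not at hcon
  nlinarith

lemma tendsto_TT (h : Good η) (hX : ContDiff ℝ 1 X) (hc : HasCompactSupport X) :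
    Tendsto (TT η X) atTop (𝓝 0) := by
  obtain ⟨K, hK0, hK⟩ := H_bound hX hc
  have hb : ∀ k, |TT η X k| ≤ (16 * K) * xx k := by
    intro k
    have h1 := hK (xx k) (η (k + 1))
    have h2 := (hK (3 / 2 * xx k) 0).1
    have hx := xx_pos k
    have he := h.eta_le k
    have hp := h.pos (k + 1)
    rw [abs_of_pos hx, abs_of_pos hp] at h1
    rw [abs_of_pos (by positivity : (0 : ℝ) < 3 / 2 * xx k), abs_zero, add_zero] at h2
    have ha1 := cA_le_one (ss η k)
    have ha0 := cA_pos (ss η k)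
    have hb0 := cB_nonneg (h.ss_pos k).le
    have hb1 : cB (ss η k) ≤ 1 := (cB_le (h.ss_pos k).le).trans ((h.ss_le8 k).trans (by norm_num))
    have hc1 := Good.a_ge (h.ss_pos k).le (h.ss_le8 k)
    have q1 : K * (xx k + η (k + 1)) ≤ 2 * K * xx k := by nlinarith
    have t1 : |cA (ss η k) * Hx X (xx k) (η (k + 1))| ≤ 2 * K * xx k := by
      rw [abs_mul, abs_of_pos ha0]
      calc _ ≤ 1 * (K * (xx k + η (k + 1))) := by
            gcongr
            exact h1.1
        _ ≤ _ := by linarith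
    have t2 : |cB (ss η k) * Hz X (xx k) (η (k + 1))| ≤ 2 * K * xx k := by
      rw [abs_mul, abs_of_nonneg hb0]
      calc _ ≤ 1 * (K * (xx k + η (k + 1))) := by
            gcongr
            exact h1.2
        _ ≤ _ := by linarith
    have t3 : |(3 + 2 * (1 - cA (ss η k))) * Hx X (3 / 2 * xx k) 0| ≤ 8 * K * xx k := by
      rw [abs_mul, abs_of_pos (by linarith)]
      calc _ ≤ 4 * (K * (3 / 2 * xx k)) := by
            gcongr
            linarith
        _ ≤ _ := by nlinarith [mul_nonneg hK0 hx.le]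
    rw [TT]
    refine (abs_add_le _ _).trans ?_
    rw [abs_mul, abs_two]
    have := abs_add_le (cA (ss η k) * Hx X (xx k) (η (k + 1)))
      (cB (ss η k) * Hz X (xx k) (η (k + 1)))
    linarith
  refine squeeze_zero_norm (a := fun k => (16 * K) * xx k) (fun k => by
    rw [Real.norm_eq_abs]; exact hb k) ?_
  simpa using tendsto_xx.const_mul (16 * K)

lemma truss_fv_bound (h : Good η) (hX : ContDiff ℝ 1 X) (hc : HasCompactSupport X) :
    ∃ K : ℝ, 0 ≤ K ∧ ∀ i : Ix, ‖(truss m n h i).fv X‖ ≤ K * xx i.1 := by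
  obtain ⟨K, hK0, hK⟩ := Phi_lip hX hc
  refine ⟨8 * K, by positivity, fun i => ?_⟩
  rw [truss, seg_fv hX hc _ _ _ _ _ _ _ _ (dat_l_pos h _ _).le]
  set D := dat η i.1 i.2.1 with hD
  have hw1 := dat_w_ge h i.1 i.2.1
  have hw4 := dat_w_le h i.1 i.2.1
  have hl0 := dat_l_pos h i.1 i.2.1
  have hl := dat_l_le h i.1 i.2.1
  have hu := dat_unit h i.1 i.2.1
  rw [← hD] at hw1 hw4 hl0 hl hu
  have hsc : (sg i.2.2.1 * D.c) ^ 2 + (sg i.2.2.2 * D.d) ^ 2 = 1 := by
    rw [mul_pow, mul_pow, sg_sq, sg_sq, one_mul, one_mul]; exact hu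
  have hn : ‖emb m n (sg i.2.2.1 * D.c) (sg i.2.2.2 * D.d)‖ ≤ 1 := by
    have := inner_emb_emb (m := m) (n := n) (sg i.2.2.1 * D.c) (sg i.2.2.2 * D.d)
      (sg i.2.2.1 * D.c) (sg i.2.2.2 * D.d)
    rw [real_inner_self_eq_norm_sq] at this
    nlinarith [norm_nonneg (emb m n (sg i.2.2.1 * D.c) (sg i.2.2.2 * D.d))]
  have h1 := hK _ hn (sg i.2.2.1 * D.a + D.l * (sg i.2.2.1 * D.c))
    (sg i.2.2.2 * D.b + D.l * (sg i.2.2.2 * D.d)) (sg i.2.2.1 * D.a) (sg i.2.2.2 * D.b)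
  rw [add_sub_cancel_left, add_sub_cancel_left, abs_mul, abs_mul, abs_mul, abs_mul, abs_sg, abs_sg,
    one_mul, one_mul, abs_of_pos hl0] at h1
  have hc1 : |D.c| ≤ 1 := by rw [abs_le]; constructor <;> nlinarith [sq_nonneg D.d]
  have hd1 : |D.d| ≤ 1 := by rw [abs_le]; constructor <;> nlinarith [sq_nonneg D.c]
  have h2 : K * (D.l * |D.c| + D.l * |D.d|) ≤ 2 * K * xx i.1 := by
    have : D.l * |D.c| + D.l * |D.d| ≤ 2 * xx i.1 := by nlinarith [abs_nonneg D.c, abs_nonneg D.d]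
    nlinarith
  rw [norm_mul, Real.norm_eq_abs, Real.norm_eq_abs, abs_of_pos (by linarith : 0 < D.w)]
  calc _ ≤ 4 * (2 * K * xx i.1) := by
        gcongr
        exact h1.trans h2
    _ = _ := by ring

lemma summable_bound (K : ℝ) : Summable fun i : Ix => K * xx i.1 := by
  have h1 : Summable fun k : ℕ => xx k :=
    summable_geometric_of_lt_one (by norm_num) (by norm_num)
  have h2 : Summable fun i : Ix => xx i.1 := by
    refine (summable_prod_of_nonneg (f := fun i : Ix => xx i.1) (fun i => (xx_pos i.1).le)).2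
      ⟨fun k => Summable.of_finite, ?_⟩
    simp only [tsum_fintype, Finset.sum_const, nsmul_eq_mul]
    exact h1.mul_left _
  exact h2.mul_left K

theorem truss_stationary (h : Good η) :
    StationaryIn (Metric.ball (0 : E m n) 1) (truss m n h) := by
  intro X hX hc hs
  obtain ⟨K, hK0, hK⟩ := truss_fv_bound (m := m) (n := n) h hX hc
  have hsum : Summable fun i : Ix => (truss m n h i).fv X :=
    Summable.of_norm_bounded (summable_bound K) hK
  have h0 : ∑' i : Ix, (truss m n h i).fv X = 0 := by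
    rw [hsum.tsum_prod]
    simp only [tsum_fintype, group_sum h hX hc]
    have hg : Summable fun k : ℕ => (TT η X k - TT η X (k + 1)) := by
      have := hsum.prod
      simpa only [tsum_fintype, group_sum h hX hc] using this
    have h1 := hg.hasSum.tendsto_sum_nat
    have h2 : Tendsto (fun N => ∑ k ∈ Finset.range N, (TT η X k - TT η X (k + 1))) atTop (𝓝 0) := by
      simp only [Finset.sum_range_sub']
      rw [TT_zero hs]
      simpa using (tendsto_TT h hX hc).const_sub 0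
    exact tendsto_nhds_unique h1 h2
  rw [← h0]
  exact hsum.hasSum

end Pool.Agent.SP74

end
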